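import Mathlib

/-!
# The leading term of a Hasse-Witt determinant in many parameters

`F = F₀ + ∑ T_i τ ^ (N - |κ w_i|²) x ^ (κ w_i)`. The determinant of the matrix of the coefficients of
`x ^ (p w_i - w_j)` in `F ^ e`, `e κ = p - 1`, is a polynomial in `τ` with the leading coefficient
`∏ T_i ^ e` at `τ ^ (∑ e (N - |κ w_i|²))`.
-/

set_option autoImplicit false

open Finset MvPolynomial

namespace Pool.Agent.Q267.DC

variable {n : Type*} [Fintype n] [DecidableEq n]

/-- The square of the length of an exponent. -/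
def nsq (u : n →₀ ℕ) : ℕ := ∑ l, u l ^ 2

omit [DecidableEq n] in
lemma nsq_smul (k : ℕ) (u : n →₀ ℕ) : nsq (k • u) = k ^ 2 * nsq u := by
  unfold nsq
  rw [mul_sum]
  refine sum_congr rfl fun l _ => ?_
  rw [Finsupp.smul_apply, smul_eq_mul, mul_pow]

section graded

variable {R : Type*} [CommRing R]

/-- The exponents of `τ` are bounded by a concave function. -/
def Q (N k : ℕ) (f : MvPolynomial n (Polynomial R)) : Prop :=
  ∀ v j, (coeff v f).coeff j ≠ 0 → k * j + nsq v ≤ k ^ 2 * N

omit [DecidableEq n] in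
/-- The convexity inequality. -/
lemma conv (k : ℕ) (a b : n →₀ ℕ) :
    (k : ℤ) * nsq (a + b) + ∑ l, ((a l : ℤ) - k * b l) ^ 2 =
      (k + 1) * nsq a + k * (k + 1) * nsq b := by
  unfold nsq
  push_cast
  rw [mul_sum, mul_sum, mul_sum, ← sum_add_distrib, ← sum_add_distrib]
  refine sum_congr rfl fun l _ => ?_
  rw [Pi.add_apply]
  push_cast
  ring

omit [Fintype n] in
lemma coeff_coeff_mul {f g : MvPolynomial n (Polynomial R)} (v : n →₀ ℕ) (j : ℕ) :
    (coeff v (f * g)).coeff j = ∑ x ∈ antidiagonal v, ∑ y ∈ antidiagonal j,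
      (coeff x.1 f).coeff y.1 * (coeff x.2 g).coeff y.2 := by
  rw [coeff_mul, Polynomial.finsetSum_coeff]
  exact sum_congr rfl fun x _ => Polynomial.coeff_mul _ _ _

lemma Q.mul {N k : ℕ} (hk : 1 ≤ k) {f g : MvPolynomial n (Polynomial R)} (hf : Q N k f)
    (hg : Q N 1 g) : Q N (k + 1) (f * g) := by
  intro v j h
  rw [coeff_coeff_mul] at h
  obtain ⟨x, hx, h1⟩ := exists_ne_zero_of_sum_ne_zero h
  obtain ⟨y, hy, h2⟩ := exists_ne_zero_of_sum_ne_zero h1
  rw [HasAntidiagonal.mem_antidiagonal] at hx hy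
  have h3 := hf _ _ (left_ne_zero_of_mul h2)
  have h4 := hg _ _ (right_ne_zero_of_mul h2)
  have h5 := conv k x.1 x.2
  rw [hx] at h5
  rw [← hy]
  have h6 : (0 : ℤ) ≤ ∑ l, ((x.1 l : ℤ) - k * x.2 l) ^ 2 := sum_nonneg fun _ _ => sq_nonneg _
  zify at h3 h4 ⊢
  have hk' : (1 : ℤ) ≤ k := by exact_mod_cast hk
  have h7 : (k : ℤ) * ((k + 1) * (y.1 + y.2) + nsq v) ≤ k * ((k + 1) ^ 2 * N) := by
    nlinarith
  exact le_of_mul_le_mul_left h7 (by linarith)

/-- The equality case. -/
lemma Q.mul_top {N k : ℕ} (hk : 1 ≤ k) {f g : MvPolynomial n (Polynomial R)} (hf : Q N k f)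
    (hg : Q N 1 g) (u : n →₀ ℕ) (c : ℕ) (hc : c + nsq u = N) :
    (coeff ((k + 1) • u) (f * g)).coeff ((k + 1) * c) =
      (coeff (k • u) f).coeff (k * c) * (coeff u g).coeff c := by
  have key : ∀ x ∈ antidiagonal ((k + 1) • u), ∀ y ∈ antidiagonal ((k + 1) * c),
      (coeff x.1 f).coeff y.1 * (coeff x.2 g).coeff y.2 ≠ 0 →
      x = (k • u, u) ∧ y = (k * c, c) := by
    intro x hx y hy h2
    rw [HasAntidiagonal.mem_antidiagonal] at hx hy
    have h3 := hf _ _ (left_ne_zero_of_mul h2)
    have h4 := hg _ _ (right_ne_zero_of_mul h2)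
    have h5 := conv k x.1 x.2
    rw [hx, nsq_smul] at h5
    have hk' : (1 : ℤ) ≤ k := by exact_mod_cast hk
    zify at h3 h4 hy hc
    push_cast at h5
    have h6 : (0 : ℤ) ≤ ∑ l, ((x.1 l : ℤ) - k * x.2 l) ^ 2 := sum_nonneg fun _ _ => sq_nonneg _
    have h7 : ∑ l, ((x.1 l : ℤ) - k * x.2 l) ^ 2 = 0 := by
      have e1 := mul_le_mul_of_nonneg_left h3 (show (0 : ℤ) ≤ k + 1 by linarith)
      have e2 := mul_le_mul_of_nonneg_left h4 (show (0 : ℤ) ≤ k * (k + 1) by positivity)
      have e3 : (k : ℤ) * (k + 1) * (y.1 + y.2) = k * (k + 1) * ((k + 1) * c) := by rw [hy]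
      have e4 : (k : ℤ) * (k + 1) ^ 2 * (c + nsq u) = k * (k + 1) ^ 2 * N := by rw [hc]
      nlinarith
    have h8 : ∀ l, (x.1 l : ℤ) = k * x.2 l := by
      intro l
      have := (sum_eq_zero_iff_of_nonneg fun l _ => sq_nonneg ((x.1 l : ℤ) - k * x.2 l)).mp h7 l
        (mem_univ l)
      have h9 := pow_eq_zero_iff (two_ne_zero) |>.mp this
      linarith
    have h9 : x.2 = u := by
      ext l
      have h10 := h8 l
      have h11 : (x.1 l : ℤ) + x.2 l = (k + 1) * u l := by
        have := DFunLike.congr_fun hx l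
        rw [Finsupp.add_apply, Finsupp.smul_apply, smul_eq_mul] at this
        exact_mod_cast this
      have h12 : ((k : ℤ) + 1) * x.2 l = (k + 1) * u l := by rw [h10] at h11; linarith
      have h13 := mul_left_cancel₀ (show ((k : ℤ) + 1) ≠ 0 by linarith) h12
      exact_mod_cast h13
    have h10 : x.1 = k • u := by
      ext l
      have := h8 l
      rw [h9] at this
      rw [Finsupp.smul_apply, smul_eq_mul]
      exact_mod_cast this
    refine ⟨Prod.ext h10 h9, ?_⟩
    rw [h9] at h4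
    rw [h10, nsq_smul] at h3
    push_cast at h3
    have h11 : (y.2 : ℤ) ≤ c := by nlinarith
    have h12 : (y.1 : ℤ) ≤ k * c := by
      have h13 : (k : ℤ) * y.1 ≤ k * (k * c) := by nlinarith
      exact le_of_mul_le_mul_left h13 (by linarith)
    have h13 : (y.1 : ℤ) = k * c := by linarith
    have h14 : (y.2 : ℤ) = c := by linarith
    exact Prod.ext (by exact_mod_cast h13) (by exact_mod_cast h14)
  rw [coeff_coeff_mul, sum_eq_single (k • u, u), sum_eq_single (k * c, c)]
  · intro y hy hne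
    by_contra h
    refine hne (key _ ?_ y hy h).2
    rw [HasAntidiagonal.mem_antidiagonal, add_smul, one_smul]
  · intro h
    exact absurd (by rw [HasAntidiagonal.mem_antidiagonal, add_mul, one_mul]) h
  · intro x hx hne
    refine sum_eq_zero fun y hy => ?_
    by_contra h
    exact hne (key x hx y hy h).1
  · intro h
    exact absurd (by rw [HasAntidiagonal.mem_antidiagonal, add_smul, one_smul]) h

/-- Powers. -/
lemma Q.pow {N : ℕ} {f : MvPolynomial n (Polynomial R)} (hf : Q N 1 f) (k : ℕ) (hk : 1 ≤ k) :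
    Q N k (f ^ k) ∧ ∀ (u : n →₀ ℕ) (c : ℕ), c + nsq u = N →
      (coeff (k • u) (f ^ k)).coeff (k * c) = (coeff u f).coeff c ^ k := by
  induction k, hk using Nat.le_induction with
  | base =>
    rw [pow_one]
    refine ⟨hf, fun u c _ => ?_⟩
    rw [one_smul, one_mul, pow_one]
  | succ k hk ih =>
    rw [_root_.pow_succ]
    refine ⟨ih.1.mul hk hf, fun u c hc => ?_⟩
    rw [ih.1.mul_top hk hf u c hc, ih.2 u c hc, _root_.pow_succ]

end graded

section det

variable {I : Type*} [Fintype I] [DecidableEq I]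

/-- The matrix of the coefficients of `x ^ (p w_i)` in `x ^ (w_j) F ^ e`. -/
noncomputable def hm {R : Type*} [CommRing R] (e p : ℕ) (w : I → n →₀ ℕ) (F : MvPolynomial n R) :
    Matrix I I R :=
  Matrix.of fun i j => coeff (p • w i) (monomial (w j) 1 * F ^ e)

omit [Fintype n] [DecidableEq n] [Fintype I] [DecidableEq I] in
lemma hm_map {R S : Type*} [CommRing R] [CommRing S] (φ : R →+* S) (e p : ℕ) (w : I → n →₀ ℕ)
    (F : MvPolynomial n R) : hm e p w (map φ F) = (hm e p w F).map φ := by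
  ext i j
  simp only [hm, Matrix.of_apply, Matrix.map_apply]
  rw [← coeff_map, map_mul, map_pow, map_monomial, RingHom.map_one]

omit [Fintype n] [DecidableEq n] in
lemma det_hm_map {R S : Type*} [CommRing R] [CommRing S] (φ : R →+* S) (e p : ℕ)
    (w : I → n →₀ ℕ) (F : MvPolynomial n R) :
    (hm e p w (map φ F)).det = φ (hm e p w F).det := by
  rw [hm_map, RingHom.map_det]
  rfl

variable {R : Type*} [CommRing R]

omit [DecidableEq n] [Fintype I] [DecidableEq I] in
lemma entry {N e p : ℕ} (w : I → n →₀ ℕ) {F : MvPolynomial n (Polynomial R)}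
    (hF : Q N e (F ^ e)) (i j : I) (m : ℕ) (h : (hm e p w F i j).coeff m ≠ 0) :
    ∃ v, v + w j = p • w i ∧ e * m + nsq v ≤ e ^ 2 * N := by
  unfold hm at h
  rw [Matrix.of_apply, coeff_monomial_mul'] at h
  by_cases hle : w j ≤ p • w i
  · rw [if_pos hle, one_mul] at h
    exact ⟨p • w i - w j, tsub_add_cancel_of_le hle, hF _ _ h⟩
  · rw [if_neg hle] at h
    exact absurd rfl h

omit [DecidableEq n] [DecidableEq I] in
/-- The sum of the squares. -/
lemma sum_nsq {p : ℕ} (w : I → n →₀ ℕ) (σ : Equiv.Perm I) (v : I → n →₀ ℕ)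
    (hv : ∀ i, v i + w i = p • w (σ i)) :
    (∑ i, (nsq (v i) : ℤ)) = (p - 1) ^ 2 * ∑ i, (nsq (w i) : ℤ) +
      p * ∑ i, ∑ l, ((w (σ i) l : ℤ) - w i l) ^ 2 := by
  have h1 : ∀ i, (nsq (v i) : ℤ) = (p ^ 2 - p) * nsq (w (σ i)) + (1 - p) * nsq (w i) +
      p * ∑ l, ((w (σ i) l : ℤ) - w i l) ^ 2 := by
    intro i
    unfold nsq
    push_cast
    rw [mul_sum, mul_sum, mul_sum, ← sum_add_distrib, ← sum_add_distrib]
    refine sum_congr rfl fun l _ => ?_
    have h2 : (v i l : ℤ) = p * w (σ i) l - w i l := by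
      have := DFunLike.congr_fun (hv i) l
      rw [Finsupp.add_apply, Finsupp.smul_apply, smul_eq_mul] at this
      zify at this
      linarith
    rw [h2]
    ring
  rw [sum_congr rfl fun i _ => h1 i, sum_add_distrib, sum_add_distrib, ← mul_sum, ← mul_sum,
    ← mul_sum, Equiv.sum_comp σ fun i => (nsq (w i) : ℤ)]
  ring

lemma coeff_prod_top {β : Type*} (s : Finset β) (f : β → Polynomial R) (m : β → ℕ)
    (hf : ∀ b ∈ s, (f b).natDegree ≤ m b) :
    (∏ b ∈ s, f b).coeff (∑ b ∈ s, m b) = ∏ b ∈ s, (f b).coeff (m b) := by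
  classical
  induction s using Finset.induction_on with
  | empty => simp
  | insert a s ha ih =>
    rw [prod_insert ha, sum_insert ha, prod_insert ha, Polynomial.coeff_mul_add_eq_of_natDegree_le
      (hf a (mem_insert_self _ _)) ?_, ih fun b hb => hf b (mem_insert_of_mem hb)]
    refine (Polynomial.natDegree_prod_le _ _).trans (sum_le_sum fun b hb => ?_)
    exact hf b (mem_insert_of_mem hb)

/-- **The leading term.** -/
theorem det_lead {N e κ p : ℕ} (he : 1 ≤ e) (hκ : e * κ + 1 = p) (w : I → n →₀ ℕ)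
    (hw : Function.Injective w) {F : MvPolynomial n (Polynomial R)} (hF : Q N 1 F)
    (c : I → ℕ) (hc : ∀ i, c i + κ ^ 2 * nsq (w i) = N) (T : I → R)
    (hT : ∀ i, (coeff (κ • w i) F).coeff (c i) = T i) :
    (hm e p w F).det.natDegree ≤ ∑ i, e * c i ∧
    (hm e p w F).det.coeff (∑ i, e * c i) = ∏ i, T i ^ e := by
  obtain ⟨hQ, hQt⟩ := hF.pow e he
  -- one permutation
  have hperm : ∀ σ : Equiv.Perm I, (∀ i, hm e p w F (σ i) i ≠ 0) →
      e * (∏ i, hm e p w F (σ i) i).natDegree + p * (∑ i, ∑ l, ((w (σ i) l : ℤ) - w i l) ^ 2) ≤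
        e * ∑ i, (e * c i : ℤ) := by
    intro σ hσ
    have h1 : ∀ i, ∃ v, v + w i = p • w (σ i) ∧
        e * (hm e p w F (σ i) i).natDegree + nsq v ≤ e ^ 2 * N := by
      intro i
      refine entry w hQ (σ i) i _ ?_
      rw [Polynomial.coeff_natDegree]
      exact Polynomial.leadingCoeff_ne_zero.mpr (hσ i)
    choose v hv hv2 using h1
    have h2 := sum_nsq w σ v hv
    have h3 : (∏ i, hm e p w F (σ i) i).natDegree ≤ ∑ i, (hm e p w F (σ i) i).natDegree :=
      Polynomial.natDegree_prod_le _ _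
    have h4 : ∑ i, ((e * (hm e p w F (σ i) i).natDegree + nsq (v i) : ℕ) : ℤ) ≤
        ∑ _i : I, ((e ^ 2 * N : ℕ) : ℤ) :=
      sum_le_sum fun i _ => by exact_mod_cast hv2 i
    push_cast at h4
    rw [sum_add_distrib, ← mul_sum, h2] at h4
    have h5 : (e : ℤ) * ∑ i, (e * c i : ℤ) + (p - 1) ^ 2 * ∑ i, (nsq (w i) : ℤ) =
        ∑ _i : I, ((e : ℤ) ^ 2 * N) := by
      have hp : ((p : ℤ) - 1) = e * κ := by rw [← hκ]; push_cast; ring
      rw [hp, mul_sum, mul_sum, ← sum_add_distrib]
      refine sum_congr rfl fun i _ => ?_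
      have := hc i
      zify at this
      rw [← this]
      ring
    have h6 : ((∏ i, hm e p w F (σ i) i).natDegree : ℤ) ≤
        ∑ i, ((hm e p w F (σ i) i).natDegree : ℤ) := by exact_mod_cast h3
    have h7 : (0 : ℤ) ≤ e := by positivity
    nlinarith
  have he' : (1 : ℤ) ≤ e := by exact_mod_cast he
  have hp0 : (1 : ℤ) ≤ p := by
    have : 1 ≤ p := by omega
    exact_mod_cast this
  have hdist : ∀ σ : Equiv.Perm I, (0 : ℤ) ≤ ∑ i, ∑ l, ((w (σ i) l : ℤ) - w i l) ^ 2 :=
    fun σ => sum_nonneg fun _ _ => sum_nonneg fun _ _ => sq_nonneg _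
  have hdeg : ∀ σ : Equiv.Perm I, (∏ i, hm e p w F (σ i) i).natDegree ≤ ∑ i, e * c i := by
    intro σ
    by_cases hσ : ∀ i, hm e p w F (σ i) i ≠ 0
    · have h1 := hperm σ hσ
      have h2 := hdist σ
      have h3 : (e : ℤ) * (∏ i, hm e p w F (σ i) i).natDegree ≤ e * ∑ i, (e * c i : ℤ) := by
        nlinarith
      have h4 := le_of_mul_le_mul_left h3 (by linarith)
      exact_mod_cast h4
    · push Not at hσ
      obtain ⟨i, hi⟩ := hσ
      rw [prod_eq_zero (f := fun i => hm e p w F (σ i) i) (mem_univ i) hi,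
        Polynomial.natDegree_zero]
      exact Nat.zero_le _
  constructor
  · rw [Matrix.det_apply]
    refine Polynomial.natDegree_sum_le_of_forall_le _ _ fun σ _ => ?_
    refine (Polynomial.natDegree_smul_le _ _).trans (hdeg σ)
  · rw [Matrix.det_apply, Polynomial.finsetSum_coeff, sum_eq_single (1 : Equiv.Perm I)]
    · rw [Equiv.Perm.sign_one, one_smul]
      simp only [Equiv.Perm.coe_one, id_eq]
      have hent : ∀ i, (hm e p w F i i) = coeff (e • κ • w i) (F ^ e) := by
        intro i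
        unfold hm
        rw [Matrix.of_apply, coeff_monomial_mul', if_pos, one_mul]
        · congr 1
          rw [← hκ, add_smul, one_smul, add_tsub_cancel_right, mul_smul]
        · rw [← hκ, add_smul, one_smul]
          exact le_add_self
      rw [coeff_prod_top]
      · refine prod_congr rfl fun i _ => ?_
        rw [hent, hQt (κ • w i) (c i) (by rw [nsq_smul]; exact hc i), hT]
      · intro i _
        rw [hent, Polynomial.natDegree_le_iff_coeff_eq_zero]
        intro m hm1
        by_contra h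
        have h1 := hQ _ _ h
        rw [nsq_smul, nsq_smul] at h1
        have h2 := hc i
        have h3 : e * m + e ^ 2 * (κ ^ 2 * nsq (w i)) ≤ e * (e * c i) + e ^ 2 * (κ ^ 2 * nsq (w i)) := by
          calc e * m + e ^ 2 * (κ ^ 2 * nsq (w i)) ≤ e ^ 2 * N := h1
            _ = e * (e * c i) + e ^ 2 * (κ ^ 2 * nsq (w i)) := by rw [← h2]; ring
        have h4 : e * m ≤ e * (e * c i) := Nat.le_of_add_le_add_right h3
        have h5 := Nat.le_of_mul_le_mul_left h4 (by omega)
        omega
    · intro σ _ hσ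
      rw [Polynomial.coeff_smul]
      have h0 : (∏ i, hm e p w F (σ i) i).coeff (∑ i, e * c i) = 0 := by
        by_cases hne : ∀ i, hm e p w F (σ i) i ≠ 0
        · apply Polynomial.coeff_eq_zero_of_natDegree_lt
          have h1 := hperm σ hne
          have h2 : (0 : ℤ) < ∑ i, ∑ l, ((w (σ i) l : ℤ) - w i l) ^ 2 := by
            refine lt_of_le_of_ne (hdist σ) fun h => hσ ?_
            ext i
            apply hw
            have h3 := (sum_eq_zero_iff_of_nonneg fun i _ => sum_nonneg fun l _ =>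
              sq_nonneg ((w (σ i) l : ℤ) - w i l)).mp h.symm i (mem_univ i)
            ext l
            have h4 := (sum_eq_zero_iff_of_nonneg fun l _ =>
              sq_nonneg ((w (σ i) l : ℤ) - w i l)).mp h3 l (mem_univ l)
            have h5 := pow_eq_zero_iff (two_ne_zero) |>.mp h4
            have h6 : (w (σ i) l : ℤ) = w i l := by linarith
            exact_mod_cast h6
          have h3 : (e : ℤ) * (∏ i, hm e p w F (σ i) i).natDegree < e * ∑ i, (e * c i : ℤ) := by
            nlinarith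
          have h4 := lt_of_mul_lt_mul_left h3 (by linarith)
          exact_mod_cast h4
        · push Not at hne
          obtain ⟨i, hi⟩ := hne
          rw [prod_eq_zero (f := fun i => hm e p w F (σ i) i) (mem_univ i) hi,
            Polynomial.coeff_zero]
      rw [h0, smul_zero]
    · intro h
      exact absurd (mem_univ _) h

end det

end Pool.Agent.Q267.DC
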