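import Pool.Agent.Q267.DC.Sup

/-!
# All scales at once: the theorem
-/

set_option autoImplicit false

open Finset

namespace Pool.Agent.Q267.DC

open NumberField IsDedekindDomain Filter Topology
open Pool.Agent.W401.Cheb Pool.Agent.W528.Ord
open Pool.Agent.Q267.OD (allP)

/-- The real-variable interpolation. -/
lemma interp {o o0 A A0 δ η ρ : ℝ} (h1 : o0 ≤ o) (h2 : o + A0 ≤ o0 + A) (h3 : A0 ≤ A)
    (h4 : A ≤ (1 + 3 * ρ) * A0) (hδ0 : 0 ≤ δ) (hδ1 : δ ≤ 1)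
    (hρ : 12 * ρ ≤ η) (hη : 0 ≤ η) (h5 : |o0 - δ * A0| ≤ η / 2 * A0) (hA0 : 0 ≤ A0) :
    |o - δ * A| ≤ η * A := by
  obtain ⟨h6, h7⟩ := abs_le.mp h5
  have h8 : A - A0 ≤ 3 * ρ * A0 := by linarith
  have h9 : 3 * ρ * A0 ≤ η / 4 * A0 := mul_le_mul_of_nonneg_right (by linarith) hA0
  have h10 : η * A0 ≤ η * A := mul_le_mul_of_nonneg_left h3 hη
  have h11 : 0 ≤ δ * (A - A0) := mul_nonneg hδ0 (by linarith)
  have h12 : δ * (A - A0) ≤ 1 * (A - A0) := mul_le_mul_of_nonneg_right hδ1 (by linarith)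
  have h13 : 0 ≤ η * A0 := mul_nonneg hη hA0
  rw [abs_le]
  constructor <;> nlinarith

/-- **Concentration at all scales.** -/
theorem abs_sup (K : Type) [Field K] [NumberField K] {J : Type*} [Fintype J] [DecidableEq J]
    [Nonempty J] {Γ : Type*} (O : Γ → HeightOneSpectrum (𝓞 K) → (J → ℕ) → Prop)
    (P : HeightOneSpectrum (𝓞 K) → Prop) (κ : ℝ) (hκ0 : 0 < κ) (hκ1 : κ ≤ 1)
    (hP : Tendsto (dens P) atTop (𝓝 κ)) (β : ℝ) (hβ0 : 0 ≤ β) (hβ1 : β ≤ 1)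
    (hV : ∀ ε : ℝ, 0 < ε → ∃ V : HeightOneSpectrum (𝓞 K) → Prop,
      Tendsto (dens fun v => P v ∧ ¬ V v) atTop (𝓝 0) ∧
      (∀ v, V v → P v ∧ (Ideal.absNorm v.asIdeal).Prime) ∧
      ∀ g v, V v → (∀ t, O g v t ↔ O g v fun j => t j % Ideal.absNorm v.asIdeal) ∧
        ∃ S : Finset (J → ℕ), (∀ a ∈ S, (∀ j, a j < Ideal.absNorm v.asIdeal) ∧ O g v a) ∧
          β - ε ≤ (S.card : ℝ) / (Ideal.absNorm v.asIdeal : ℝ) ^ Fintype.card J)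
    (η : ℝ) (hη : 0 < η) (θ : ℝ) (hθ0 : 0 < θ) (hθ1 : θ < 1) :
    ∃ A : ℝ, ∀ g : Γ, ∃ δ : ℕ → ℝ, (∀ Q, κ * β - η ≤ δ Q) ∧
      ∀ X Q₀ Q₁ : ℕ, 1 ≤ Q₀ →
      ({t : J → ℕ | (∀ j, 1 ≤ t j ∧ t j ≤ X) ∧ ∃ Q, Q₀ ≤ Q ∧ Q ≤ Q₁ ∧ η * allP K Q <
        |(Nat.card {v : HeightOneSpectrum (𝓞 K) //
          Ideal.absNorm v.asIdeal ≤ Q ∧ P v ∧ O g v t} : ℝ) - δ Q * allP K Q|}.ncard : ℝ) ≤
        A * ((X : ℝ) ^ Fintype.card J * (Q₀ : ℝ) ^ (θ - 1) +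
          (X : ℝ) ^ (Fintype.card J - 1) * (Q₁ : ℝ) ^ (1 + θ)) := by
  classical
  set m := Fintype.card J with hm
  have hm1 : 1 ≤ m := Fintype.card_pos
  obtain ⟨ρ, hρ⟩ : ∃ ρ : ℝ, ρ = min (η / 12) (1 / 4) := ⟨_, rfl⟩
  have hρ0 : 0 < ρ := by rw [hρ]; positivity
  have hρ1 : ρ ≤ 1 / 4 := by rw [hρ]; exact min_le_right _ _
  have hρη : 12 * ρ ≤ η := by
    have : ρ ≤ η / 12 := by rw [hρ]; exact min_le_left _ _
    linarith
  obtain ⟨A₀, N₀, hA₀, hN₀, H⟩ := abs_conc K O P κ hκ0 hκ1 hP β hβ0 hβ1 hV (η / 2) (by positivity)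
  obtain ⟨N₂, hN₂⟩ := grid K ρ hρ0 hρ1
  obtain ⟨N₄, hN₄⟩ := (pi_lower θ hθ0).exists_forall_of_atTop
  obtain ⟨a, ha⟩ : ∃ a : ℝ, a = 1 + ρ := ⟨_, rfl⟩
  rw [← ha] at hN₂
  have ha1 : 1 < a := by rw [ha]; linarith
  have ha2 : a ≤ 2 := by rw [ha]; linarith
  have ha0 : 0 < a := by linarith
  obtain ⟨N₃, hN₃0, hN₃2, hN₃4⟩ : ∃ N₃ : ℕ, N₀ ≤ N₃ ∧ N₂ ≤ N₃ ∧ N₄ ≤ N₃ :=
    ⟨max N₀ (max N₂ N₄), le_max_left _ _, (le_max_left _ _).trans (le_max_right _ _),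
      (le_max_right _ _).trans (le_max_right _ _)⟩
  -- the index of a number in the grid
  have hidx : ∀ Q : ℕ, ∃ j : ℕ, 1 ≤ Q → a ^ j ≤ (Q : ℝ) ∧ (Q : ℝ) < a ^ (j + 1) := by
    intro Q
    by_cases hQ : 1 ≤ Q
    · obtain ⟨j, hj⟩ := exists_nat_pow_near (show (1 : ℝ) ≤ Q by exact_mod_cast hQ) ha1
      exact ⟨j, fun _ => hj⟩
    · exact ⟨0, fun h => absurd h hQ⟩
  choose idx hidx' using hidx
  set s : ℕ → ℕ := fun j => ⌊a ^ j⌋₊ with hs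
  have hsle : ∀ j, (s j : ℝ) ≤ a ^ j := fun j => Nat.floor_le (by positivity)
  have hslt : ∀ j, a ^ j < (s j : ℝ) + 1 := fun j => Nat.lt_floor_add_one _
  have hQs : ∀ Q, 1 ≤ Q → s (idx Q) ≤ Q ∧ Q ≤ s (idx Q + 1) := by
    intro Q hQ
    obtain ⟨h1, h2⟩ := hidx' Q hQ
    refine ⟨?_, Nat.le_floor h2.le⟩
    have h3 := (hsle (idx Q)).trans h1
    exact_mod_cast h3
  obtain ⟨x, hx⟩ : ∃ x : ℝ, x = a ^ (θ - 1) := ⟨_, rfl⟩
  obtain ⟨y, hy⟩ : ∃ y : ℝ, y = a ^ (1 + θ) := ⟨_, rfl⟩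
  have hx0 : 0 < x := by rw [hx]; exact Real.rpow_pos_of_pos ha0 _
  have hx1 : x < 1 := by rw [hx]; exact Real.rpow_lt_one_of_one_lt_of_neg ha1 (by linarith)
  have hy1 : 1 < y := by rw [hy]; exact Real.one_lt_rpow ha1 (by linarith)
  have hxy : y = a ^ 2 * x := by
    rw [hx, hy, ← Real.rpow_natCast, ← Real.rpow_add ha0]
    congr 1
    push_cast
    ring
  have hxj : ∀ j : ℕ, x ^ j = (a ^ j) ^ (θ - 1) := by
    intro j
    rw [hx, ← Real.rpow_natCast, ← Real.rpow_mul ha0.le, ← Real.rpow_natCast a j,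
      ← Real.rpow_mul ha0.le, mul_comm]
  have hyj : ∀ j : ℕ, y ^ j = (a ^ j) ^ (1 + θ) := by
    intro j
    rw [hy, ← Real.rpow_natCast, ← Real.rpow_mul ha0.le, ← Real.rpow_natCast a j,
      ← Real.rpow_mul ha0.le, mul_comm]
  obtain ⟨B, hB⟩ : ∃ B : ℝ, B = A₀ * (4 / θ) * (2 / (1 - x) + y / (y - 1)) := ⟨_, rfl⟩
  have hB0 : 0 ≤ B := by
    have h1 : 0 < 1 - x := by linarith
    have h2 : 0 < y - 1 := by linarith
    rw [hB]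
    positivity
  refine ⟨B + (2 * N₃ + 2), fun g => ?_⟩
  choose δ₀ h1 h2 h3 h4 using H g
  refine ⟨fun Q => δ₀ (s (idx Q)), fun Q => ?_, fun X Q₀ Q₁ hQ₀ => ?_⟩
  · have := h1 (s (idx Q))
    linarith
  -- the exceptional set
  set E : Set (J → ℕ) := {t : J → ℕ | (∀ j, 1 ≤ t j ∧ t j ≤ X) ∧ ∃ Q, Q₀ ≤ Q ∧ Q ≤ Q₁ ∧
    η * allP K Q < |(Nat.card {v : HeightOneSpectrum (𝓞 K) //
          Ideal.absNorm v.asIdeal ≤ Q ∧ P v ∧ O g v t} : ℝ) -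
          δ₀ (s (idx Q)) * allP K Q|} with hE
  have hbox : ∀ F : Set (J → ℕ), (∀ t ∈ F, ∀ j, 1 ≤ t j ∧ t j ≤ X) →
      F ⊆ (Fintype.piFinset (fun _ : J => Icc 1 X) : Finset (J → ℕ)) := by
    intro F hF t ht
    rw [Finset.mem_coe, Fintype.mem_piFinset]
    exact fun j => Finset.mem_Icc.mpr (hF t ht j)
  have hEfin : E.Finite := (Finset.finite_toSet _).subset (hbox E fun t ht => ht.1)
  have hEc : (E.ncard : ℝ) ≤ (X : ℝ) ^ m := by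
    have h5 := Set.ncard_le_ncard (hbox E fun t ht => ht.1) (Finset.finite_toSet _)
    rw [Set.ncard_coe_finset, Fintype.card_piFinset, prod_const, Nat.card_Icc,
      Nat.add_sub_cancel, card_univ] at h5
    exact_mod_cast h5
  have hQ₀' : (1 : ℝ) ≤ Q₀ := by exact_mod_cast hQ₀
  have hT1 : 0 ≤ (X : ℝ) ^ m * (Q₀ : ℝ) ^ (θ - 1) := by positivity
  have hT2 : 0 ≤ (X : ℝ) ^ (m - 1) * (Q₁ : ℝ) ^ (1 + θ) := by positivity
  by_cases hQN : (Q₀ : ℝ) < 2 * (N₃ + 1)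
  · -- small `Q₀`
    have h5 : (1 : ℝ) ≤ (2 * N₃ + 2) * (Q₀ : ℝ) ^ (θ - 1) := by
      have h6 : (Q₀ : ℝ)⁻¹ ≤ (Q₀ : ℝ) ^ (θ - 1) := by
        rw [← Real.rpow_neg_one]
        exact Real.rpow_le_rpow_of_exponent_le hQ₀' (by linarith)
      have h7 : (1 : ℝ) = Q₀ * (Q₀ : ℝ)⁻¹ := by
        rw [mul_inv_cancel₀ (by linarith)]
      calc (1 : ℝ) = Q₀ * (Q₀ : ℝ)⁻¹ := h7
        _ ≤ (2 * N₃ + 2) * (Q₀ : ℝ)⁻¹ :=
          mul_le_mul_of_nonneg_right (by linarith) (by positivity)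
        _ ≤ _ := mul_le_mul_of_nonneg_left h6 (by positivity)
    calc (E.ncard : ℝ) ≤ (X : ℝ) ^ m * 1 := by rw [mul_one]; exact hEc
      _ ≤ (X : ℝ) ^ m * ((2 * N₃ + 2) * (Q₀ : ℝ) ^ (θ - 1)) :=
          mul_le_mul_of_nonneg_left h5 (by positivity)
      _ = (2 * N₃ + 2) * ((X : ℝ) ^ m * (Q₀ : ℝ) ^ (θ - 1)) := by ring
      _ ≤ (B + (2 * N₃ + 2)) * ((X : ℝ) ^ m * (Q₀ : ℝ) ^ (θ - 1) +
          (X : ℝ) ^ (m - 1) * (Q₁ : ℝ) ^ (1 + θ)) := by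
          have hN : (0 : ℝ) ≤ 2 * N₃ + 2 := by positivity
          have e1 := mul_nonneg hB0 hT1
          have e2 := mul_nonneg hB0 hT2
          have e3 := mul_nonneg hN hT2
          have e4 : (B + (2 * N₃ + 2)) * ((X : ℝ) ^ m * (Q₀ : ℝ) ^ (θ - 1) +
              (X : ℝ) ^ (m - 1) * (Q₁ : ℝ) ^ (1 + θ)) =
              B * ((X : ℝ) ^ m * (Q₀ : ℝ) ^ (θ - 1)) +
              B * ((X : ℝ) ^ (m - 1) * (Q₁ : ℝ) ^ (1 + θ)) +
              ((2 * N₃ + 2) * ((X : ℝ) ^ m * (Q₀ : ℝ) ^ (θ - 1)) +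
              (2 * N₃ + 2) * ((X : ℝ) ^ (m - 1) * (Q₁ : ℝ) ^ (1 + θ))) := by ring
          rw [e4]
          linarith
  push Not at hQN
  by_cases hQQ : Q₁ < Q₀
  · have h5 : E = ∅ := by
      ext t
      simp only [hE, Set.mem_ofPred_eq, Set.mem_empty_iff_false, iff_false, not_and]
      rintro _ ⟨Q, hq1, hq2, _⟩
      omega
    rw [h5, Set.ncard_empty, Nat.cast_zero]
    have hN : (0 : ℝ) ≤ 2 * N₃ + 2 := by positivity
    exact mul_nonneg (by linarith) (by linarith)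
  push Not at hQQ
  have hQ₁ : 1 ≤ Q₁ := hQ₀.trans hQQ
  -- large grid points
  have hbig : ∀ j, idx Q₀ ≤ j → N₃ ≤ s j ∧ (1 / 2 : ℝ) * a ^ j ≤ s j := by
    intro j hj
    have h5 := (hidx' Q₀ hQ₀).2
    have h6 : a ^ (idx Q₀) ≤ a ^ j := pow_le_pow_right₀ ha1.le hj
    have h7 : (N₃ : ℝ) + 1 ≤ a ^ j := by
      have h8 : (2 : ℝ) * (N₃ + 1) ≤ 2 * a ^ j := by
        calc (2 : ℝ) * (N₃ + 1) ≤ Q₀ := hQN
          _ ≤ a ^ (idx Q₀ + 1) := h5.le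
          _ = a * a ^ (idx Q₀) := by rw [pow_succ]; ring
          _ ≤ 2 * a ^ j := mul_le_mul ha2 h6 (by positivity) (by norm_num)
      linarith
    have h8 := hslt j
    have h9 : N₃ ≤ s j := by
      have h10 : (N₃ : ℝ) < s j + 1 := by linarith
      have h11 : N₃ < s j + 1 := by exact_mod_cast h10
      omega
    refine ⟨h9, ?_⟩
    have h10 : (2 : ℝ) ≤ s j := by exact_mod_cast hN₀.trans (hN₃0.trans h9)
    linarith
  -- the inclusion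
  set Ej : ℕ → Set (J → ℕ) := fun j => {t : J → ℕ | (∀ i, 1 ≤ t i ∧ t i ≤ X) ∧
    η / 2 * allP K (s j) < |(Nat.card {v : HeightOneSpectrum (𝓞 K) //
          Ideal.absNorm v.asIdeal ≤ s j ∧ P v ∧ O g v t} : ℝ) -
          δ₀ (s j) * allP K (s j)|} with hEj
  have hEjfin : ∀ j, (Ej j).Finite := fun j =>
    (Finset.finite_toSet _).subset (hbox (Ej j) fun t ht => ht.1)
  have hincl : hEfin.toFinset ⊆ (Finset.Ico (idx Q₀) (idx Q₁ + 1)).biUnion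
      fun j => (hEjfin j).toFinset := by
    intro t ht
    rw [Set.Finite.mem_toFinset] at ht
    obtain ⟨ht1, Q, hq1, hq2, hq3⟩ := ht
    have hQ1 : 1 ≤ Q := hQ₀.trans hq1
    obtain ⟨h5, h6⟩ := hidx' Q hQ1
    obtain ⟨h7, h8⟩ := hidx' Q₀ hQ₀
    obtain ⟨h9, h10⟩ := hidx' Q₁ hQ₁
    have hq1' : (Q₀ : ℝ) ≤ Q := by exact_mod_cast hq1
    have hq2' : (Q : ℝ) ≤ Q₁ := by exact_mod_cast hq2
    have h11 : idx Q₀ < idx Q + 1 :=
      (pow_lt_pow_iff_right₀ ha1).mp (lt_of_le_of_lt (h7.trans hq1') h6)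
    have h12 : idx Q < idx Q₁ + 1 :=
      (pow_lt_pow_iff_right₀ ha1).mp (lt_of_le_of_lt (h5.trans hq2') h10)
    rw [Finset.mem_biUnion]
    refine ⟨idx Q, Finset.mem_Ico.mpr ⟨by omega, h12⟩, ?_⟩
    rw [Set.Finite.mem_toFinset]
    refine ⟨ht1, ?_⟩
    by_contra hcon
    push Not at hcon
    obtain ⟨h13, h14⟩ := hQs Q hQ1
    have h15 := cnt_le (K := K) (fun v => P v ∧ O g v t) h13
    have h16 := (cnt_le (K := K) (fun v => P v ∧ O g v t) h14).2.2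
    have h17 := hN₂ (idx Q) (hN₃2.trans (hbig (idx Q) (by omega)).1)
    have h18 : (allP K Q : ℝ) ≤ (1 + 3 * ρ) * allP K (s (idx Q)) := by
      have h19 : (allP K Q : ℝ) ≤ allP K (s (idx Q + 1)) := by exact_mod_cast h16
      exact h19.trans h17
    have h19 : ((cnt (K := K) (fun v => P v ∧ O g v t) (s (idx Q)) : ℕ) : ℝ) ≤
        cnt (K := K) (fun v => P v ∧ O g v t) Q := by exact_mod_cast h15.1
    have h20 : ((cnt (K := K) (fun v => P v ∧ O g v t) Q : ℕ) : ℝ) + allP K (s (idx Q)) ≤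
        cnt (K := K) (fun v => P v ∧ O g v t) (s (idx Q)) + allP K Q := by exact_mod_cast h15.2.1
    have h21 : ((allP K (s (idx Q)) : ℕ) : ℝ) ≤ allP K Q := by exact_mod_cast h15.2.2
    have h22 := interp h19 h20 h21 h18 (h2 (s (idx Q))) (h3 (s (idx Q))) hρη hη.le hcon
      (Nat.cast_nonneg _)
    exact absurd hq3 (not_lt.mpr h22)
  -- the size of the pieces
  have hpiece : ∀ j ∈ Finset.Ico (idx Q₀) (idx Q₁ + 1), (((hEjfin j).toFinset.card : ℕ) : ℝ) ≤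
      A₀ * (4 / θ) * ((X : ℝ) ^ m * x ^ j + (X : ℝ) ^ (m - 1) * y ^ j) := by
    intro j hj
    obtain ⟨h5, h6⟩ := hbig j (Finset.mem_Ico.mp hj).1
    have h7 := h4 (s j) (hN₃0.trans h5) X
    have h8 := hN₄ (s j) (hN₃4.trans h5)
    have h9 : (Ej j).ncard = (hEjfin j).toFinset.card := Set.ncard_eq_toFinset_card _ (hEjfin j)
    rw [← h9]
    have haj : 0 < a ^ j := by positivity
    -- the lower bound for `π`
    have h10 : θ / 4 * (a ^ j * (x ^ j)⁻¹ ) * (1 / (a ^ j)) ≤ θ / 4 * (x ^ j)⁻¹ := by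
      rw [mul_assoc]
      refine mul_le_mul_of_nonneg_left ?_ (by positivity)
      rw [mul_right_comm, mul_one_div_cancel haj.ne', one_mul]
    have h11 : θ / 4 * (x ^ j)⁻¹ ≤ Nat.primeCounting (s j) := by
      have h12 : (1 / 2 : ℝ) * (x ^ j)⁻¹ ≤ (s j : ℝ) ^ (1 - θ) := by
        have h13 : ((1 / 2 : ℝ) * a ^ j) ^ (1 - θ) ≤ (s j : ℝ) ^ (1 - θ) :=
          Real.rpow_le_rpow (by positivity) h6 (by linarith)
        refine le_trans ?_ h13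
        rw [Real.mul_rpow (by norm_num) haj.le, hxj, ← Real.rpow_neg haj.le, neg_sub]
        refine mul_le_mul_of_nonneg_right ?_ (by positivity)
        calc (1 / 2 : ℝ) = (1 / 2 : ℝ) ^ (1 : ℝ) := by rw [Real.rpow_one]
          _ ≤ (1 / 2 : ℝ) ^ (1 - θ) :=
            Real.rpow_le_rpow_of_exponent_ge (by norm_num) (by norm_num) (by linarith)
      calc θ / 4 * (x ^ j)⁻¹ = θ / 2 * ((1 / 2 : ℝ) * (x ^ j)⁻¹) := by ring
        _ ≤ θ / 2 * (s j : ℝ) ^ (1 - θ) := mul_le_mul_of_nonneg_left h12 (by positivity)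
        _ ≤ _ := h8
    have hxj0 : 0 < x ^ j := by positivity
    have h12 : ((Ej j).ncard : ℝ) * (θ / 4 * (x ^ j)⁻¹) ≤
        A₀ * (((X : ℝ) + (a ^ j) ^ 2) * (X : ℝ) ^ (m - 1)) := by
      calc _ ≤ ((Ej j).ncard : ℝ) * Nat.primeCounting (s j) :=
            mul_le_mul_of_nonneg_left h11 (Nat.cast_nonneg _)
        _ ≤ A₀ * (((X : ℝ) + (s j : ℝ) ^ 2) * (X : ℝ) ^ (m - 1)) := h7
        _ ≤ _ := by
          refine mul_le_mul_of_nonneg_left (mul_le_mul_of_nonneg_right ?_ (by positivity)) hA₀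
          have := pow_le_pow_left₀ (Nat.cast_nonneg _) (hsle j) 2
          linarith
    have h13 : ((Ej j).ncard : ℝ) = ((Ej j).ncard : ℝ) * (θ / 4 * (x ^ j)⁻¹) *
        (4 / θ * x ^ j) := by
      field_simp
    rw [h13]
    have hXm : (X : ℝ) ^ m = X * (X : ℝ) ^ (m - 1) := by
      obtain ⟨m', hm'⟩ : ∃ m', m = m' + 1 := ⟨m - 1, by omega⟩
      rw [hm', Nat.add_sub_cancel, pow_succ]
      ring
    calc _ ≤ A₀ * (((X : ℝ) + (a ^ j) ^ 2) * (X : ℝ) ^ (m - 1)) * (4 / θ * x ^ j) :=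
          mul_le_mul_of_nonneg_right h12 (by positivity)
      _ = _ := by
          rw [hXm, hxy, mul_pow, ← pow_mul, ← pow_mul, mul_comm 2 j]
          ring
  have hsum : (E.ncard : ℝ) ≤ ∑ j ∈ Finset.Ico (idx Q₀) (idx Q₁ + 1),
      A₀ * (4 / θ) * ((X : ℝ) ^ m * x ^ j + (X : ℝ) ^ (m - 1) * y ^ j) := by
    rw [Set.ncard_eq_toFinset_card _ hEfin]
    have h5 := (card_le_card hincl).trans card_biUnion_le
    have h6 : (hEfin.toFinset.card : ℝ) ≤ ∑ j ∈ Finset.Ico (idx Q₀) (idx Q₁ + 1),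
        (((hEjfin j).toFinset.card : ℕ) : ℝ) := by exact_mod_cast h5
    exact h6.trans (sum_le_sum hpiece)
  rw [← mul_sum, sum_add_distrib, ← mul_sum, ← mul_sum] at hsum
  have hgx : ∑ j ∈ Finset.Ico (idx Q₀) (idx Q₁ + 1), x ^ j ≤
      2 / (1 - x) * (Q₀ : ℝ) ^ (θ - 1) := by
    refine (geom_sum_Ico_le_of_lt_one hx0.le hx1).trans ?_
    rw [div_mul_eq_mul_div]
    refine div_le_div_of_nonneg_right ?_ (by linarith)
    obtain ⟨_, h8⟩ := hidx' Q₀ hQ₀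
    -- `Q₀ < a ^ (j + 1)`
    have h9 : x ^ (idx Q₀ + 1) ≤ (Q₀ : ℝ) ^ (θ - 1) := by
      rw [hxj]
      exact Real.rpow_le_rpow_of_nonpos (by linarith) h8.le (by linarith)
    have h10 : (1 / 2 : ℝ) ≤ x := by
      rw [hx]
      calc (1 / 2 : ℝ) = 2 ^ (-1 : ℝ) := by rw [Real.rpow_neg_one]; norm_num
        _ ≤ a ^ (-1 : ℝ) := Real.rpow_le_rpow_of_nonpos ha0 ha2 (by norm_num)
        _ ≤ a ^ (θ - 1) := Real.rpow_le_rpow_of_exponent_le ha1.le (by linarith)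
    rw [pow_succ] at h9
    have h11 : x ^ idx Q₀ * (1 / 2) ≤ x ^ idx Q₀ * x :=
      mul_le_mul_of_nonneg_left h10 (by positivity)
    linarith
  have hgy : ∑ j ∈ Finset.Ico (idx Q₀) (idx Q₁ + 1), y ^ j ≤
      y / (y - 1) * (Q₁ : ℝ) ^ (1 + θ) := by
    have hy0 : 0 < y - 1 := by linarith
    have h5 : ∑ j ∈ Finset.Ico (idx Q₀) (idx Q₁ + 1), y ^ j ≤
        ∑ j ∈ Finset.range (idx Q₁ + 1), y ^ j := by
      refine sum_le_sum_of_subset_of_nonneg ?_ fun _ _ _ => by positivity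
      intro j hj
      rw [Finset.mem_range]
      exact (Finset.mem_Ico.mp hj).2
    refine h5.trans ?_
    rw [geom_sum_eq hy1.ne', div_mul_eq_mul_div]
    refine div_le_div_of_nonneg_right ?_ hy0.le
    obtain ⟨h8, _⟩ := hidx' Q₁ hQ₁
    have h9 : y ^ (idx Q₁) ≤ (Q₁ : ℝ) ^ (1 + θ) := by
      rw [hyj]
      exact Real.rpow_le_rpow (by positivity) h8 (by linarith)
    have h10 : y ^ (idx Q₁) * y ≤ (Q₁ : ℝ) ^ (1 + θ) * y :=
      mul_le_mul_of_nonneg_right h9 (by linarith)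
    rw [pow_succ]
    linarith
  have hAθ : 0 ≤ A₀ * (4 / θ) := by positivity
  calc (E.ncard : ℝ) ≤ A₀ * (4 / θ) * ((X : ℝ) ^ m * ∑ j ∈ Finset.Ico (idx Q₀) (idx Q₁ + 1), x ^ j +
        (X : ℝ) ^ (m - 1) * ∑ j ∈ Finset.Ico (idx Q₀) (idx Q₁ + 1), y ^ j) := hsum
    _ ≤ A₀ * (4 / θ) * ((X : ℝ) ^ m * (2 / (1 - x) * (Q₀ : ℝ) ^ (θ - 1)) +
        (X : ℝ) ^ (m - 1) * (y / (y - 1) * (Q₁ : ℝ) ^ (1 + θ))) := by
        refine mul_le_mul_of_nonneg_left (add_le_add ?_ ?_) hAθ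
        · exact mul_le_mul_of_nonneg_left hgx (by positivity)
        · exact mul_le_mul_of_nonneg_left hgy (by positivity)
    _ ≤ (B + (2 * N₃ + 2)) * ((X : ℝ) ^ m * (Q₀ : ℝ) ^ (θ - 1) +
        (X : ℝ) ^ (m - 1) * (Q₁ : ℝ) ^ (1 + θ)) := by
        have hu : 0 ≤ 2 / (1 - x) := div_nonneg (by norm_num) (by linarith)
        have hw : 0 ≤ y / (y - 1) := div_nonneg (by linarith) (by linarith)
        have hN : (0 : ℝ) ≤ 2 * N₃ + 2 := by positivity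
        have e1 : A₀ * (4 / θ) * ((X : ℝ) ^ m * (2 / (1 - x) * (Q₀ : ℝ) ^ (θ - 1)) +
            (X : ℝ) ^ (m - 1) * (y / (y - 1) * (Q₁ : ℝ) ^ (1 + θ))) =
            (A₀ * (4 / θ) * (2 / (1 - x))) * ((X : ℝ) ^ m * (Q₀ : ℝ) ^ (θ - 1)) +
            (A₀ * (4 / θ) * (y / (y - 1))) * ((X : ℝ) ^ (m - 1) * (Q₁ : ℝ) ^ (1 + θ)) := by ring
        have e2 : (B + (2 * N₃ + 2)) * ((X : ℝ) ^ m * (Q₀ : ℝ) ^ (θ - 1) +
            (X : ℝ) ^ (m - 1) * (Q₁ : ℝ) ^ (1 + θ)) =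
            (A₀ * (4 / θ) * (2 / (1 - x))) * ((X : ℝ) ^ m * (Q₀ : ℝ) ^ (θ - 1)) +
            (A₀ * (4 / θ) * (y / (y - 1))) * ((X : ℝ) ^ (m - 1) * (Q₁ : ℝ) ^ (1 + θ)) +
            ((A₀ * (4 / θ) * (y / (y - 1))) * ((X : ℝ) ^ m * (Q₀ : ℝ) ^ (θ - 1)) +
            (A₀ * (4 / θ) * (2 / (1 - x))) * ((X : ℝ) ^ (m - 1) * (Q₁ : ℝ) ^ (1 + θ)) +
            (2 * N₃ + 2) * ((X : ℝ) ^ m * (Q₀ : ℝ) ^ (θ - 1)) +
            (2 * N₃ + 2) * ((X : ℝ) ^ (m - 1) * (Q₁ : ℝ) ^ (1 + θ))) := by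
          rw [hB]
          ring
        rw [e1, e2]
        have e3 := mul_nonneg (mul_nonneg hAθ hw) hT1
        have e4 := mul_nonneg (mul_nonneg hAθ hu) hT2
        have e5 := mul_nonneg hN hT1
        have e6 := mul_nonneg hN hT2
        linarith

end Pool.Agent.Q267.DC
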