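import Pool.Agent.Q267.DC.Res
import Pool.Agent.Q267.DC.Sup2

/-!
# Ordinary places of almost all double covers
-/

set_option autoImplicit false

open Finset MvPolynomial

namespace Pool.Agent.Q267.DC

open NumberField IsDedekindDomain Filter Topology
open Pool.Agent.W401.Cheb Pool.Agent.W528.Ord
open Pool.Agent.Q267.OD (allP dform Smooth red charP_res finite_mem)

section place

variable {K : Type} [Field K] [NumberField K]

lemma card_res (v : HeightOneSpectrum (𝓞 K)) :
    Nat.card v.asIdeal.ResidueField = Ideal.absNorm v.asIdeal := by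
  rw [Ideal.absNorm_apply]
  have := v.isMaximal
  exact (Nat.card_congr (Equiv.ofBijective _
    (Ideal.bijective_algebraMap_quotient_residueField v.asIdeal))).symm

variable {n : ℕ}

/-- Good ordinary reduction of `y ^ 2 = f` at `v`. -/
def GoodOrd (d : Fin n → ℕ) (b : Fin n → 𝓞 K) (v : HeightOneSpectrum (𝓞 K))
    (f : MvPolynomial (Fin n) (𝓞 K)) : Prop :=
  (2 : 𝓞 K) ∉ v.asIdeal ∧ (∀ i, (d i : 𝓞 K) * b i ∉ v.asIdeal) ∧ Smooth (red v f) ∧
    (hasseWitt d (Ideal.absNorm v.asIdeal) (red v f)).det ≠ 0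

omit [NumberField K] in
lemma red_member (v : HeightOneSpectrum (𝓞 K)) (d : Fin n → ℕ) (b : Fin n → 𝓞 K)
    (G : MvPolynomial (Fin n) (𝓞 K)) (t : Option (Exps d) → ℕ) :
    red v (member d b G fun j => (t j : 𝓞 K)) =
      member d (fun i => algebraMap (𝓞 K) v.asIdeal.ResidueField (b i)) (red v G)
        fun j => (t j : v.asIdeal.ResidueField) := by
  unfold red member dform
  rw [map_add, map_add, map_add, map_sum, map_sum, map_C, map_natCast]
  congr 1
  · congr 2
    exact sum_congr rfl fun i _ => map_monomial _ _ _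
  · refine sum_congr rfl fun w _ => ?_
    rw [map_monomial, map_natCast]

end place

theorem main (K : Type) [Field K] [NumberField K] {n : ℕ} (d : Fin n → ℕ)
    (hd0 : ∀ i, d i ≠ 0) (b : Fin n → 𝓞 K) (hb0 : ∀ i, b i ≠ 0) (η : ℝ) (hη : 0 < η)
    (θ : ℝ) (hθ0 : 0 < θ) (hθ1 : θ < 1) :
    ∃ A : ℝ, ∀ G : MvPolynomial (Fin n) (𝓞 K), (∀ u ∈ G.support, ∑ i, (u i : ℚ) / d i < 1) →
      ∃ δ : ℕ → ℝ, (∀ Q, (1 / 2) ^ Fintype.card (Exps d) - η ≤ δ Q) ∧
      ∀ X Q₀ Q₁ : ℕ, 1 ≤ Q₀ →
      ({t : Option (Exps d) → ℕ | (∀ j, 1 ≤ t j ∧ t j ≤ X) ∧ ∃ Q, Q₀ ≤ Q ∧ Q ≤ Q₁ ∧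
        η * allP K Q <
        |(Nat.card {v : HeightOneSpectrum (𝓞 K) // Ideal.absNorm v.asIdeal ≤ Q ∧
          GoodOrd d b v (member d b G fun j => (t j : 𝓞 K))} : ℝ) -
          δ Q * allP K Q|}.ncard : ℝ) ≤
        A * ((X : ℝ) ^ (Fintype.card (Exps d) + 1) * (Q₀ : ℝ) ^ (θ - 1) +
          (X : ℝ) ^ Fintype.card (Exps d) * (Q₁ : ℝ) ^ (1 + θ)) := by
  classical
  obtain ⟨A, hA⟩ := abs_sup K (J := Option (Exps d))
    (Γ := {G : MvPolynomial (Fin n) (𝓞 K) // ∀ u ∈ G.support, ∑ i, (u i : ℚ) / d i < 1})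
    (fun G v t => GoodOrd d b v (member d b G.1 fun j => (t j : 𝓞 K))) (fun _ => True) 1
    one_pos le_rfl (dens_true (K := K)) ((1 / 2) ^ Fintype.card (Exps d)) (by positivity)
    (pow_le_one₀ (by norm_num) (by norm_num)) (by
      intro ε hε
      set Bad : HeightOneSpectrum (𝓞 K) → Prop := fun v =>
        (2 : 𝓞 K) ∈ v.asIdeal ∨ (∃ i, (d i : 𝓞 K) * b i ∈ v.asIdeal) ∨
          ¬ ((∏ i, (d i - 1) : ℕ) : ℝ) ≤ ε * Ideal.absNorm v.asIdeal with hBad
      have hfin : {v | Bad v}.Finite := by
        have h1 := finite_mem (K := K) (2 : 𝓞 K) two_ne_zero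
        have h2 : (⋃ i, {v : HeightOneSpectrum (𝓞 K) | (d i : 𝓞 K) * b i ∈ v.asIdeal}).Finite :=
          Set.finite_iUnion fun i => finite_mem _
            (mul_ne_zero (Nat.cast_ne_zero.mpr (hd0 i)) (hb0 i))
        have h3 := Pool.Agent.W352.ChAbs.finite_le (K := K) ⌈((∏ i, (d i - 1) : ℕ) : ℝ) / ε⌉₊
        refine ((h1.union h2).union h3).subset ?_
        rintro v (h | ⟨i, h⟩ | h)
        · exact Or.inl (Or.inl h)
        · exact Or.inl (Or.inr (Set.mem_iUnion.mpr ⟨i, h⟩))
        · right
          change Ideal.absNorm v.asIdeal ≤ _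
          push Not at h
          have h4 : (Ideal.absNorm v.asIdeal : ℝ) ≤ ((∏ i, (d i - 1) : ℕ) : ℝ) / ε := by
            rw [le_div_iff₀ hε]
            linarith
          exact_mod_cast h4.trans (Nat.le_ceil _)
      refine ⟨fun v => (Ideal.absNorm v.asIdeal).Prime ∧ ¬ Bad v, ?_, fun v hv => ⟨trivial, hv.1⟩,
        ?_⟩
      · have h1 : Tendsto (fun N => dens (fun v : HeightOneSpectrum (𝓞 K) =>
            ¬ (Ideal.absNorm v.asIdeal).Prime) N + dens Bad N) atTop (𝓝 (0 + 0)) :=
          (dens_not_prime (K := K)).add (dens_finite Bad hfin)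
        rw [add_zero] at h1
        refine squeeze_zero (fun N => dens_nonneg _ _) (fun N => ?_) h1
        refine le_trans (dens_mono (Q := fun v => ¬ (Ideal.absNorm v.asIdeal).Prime ∨ Bad v) ?_ N)
          (dens_or _ _ N)
        rintro v ⟨_, hv⟩
        by_cases h3 : (Ideal.absNorm v.asIdeal).Prime
        · right
          by_contra h4
          exact hv ⟨h3, h4⟩
        · exact Or.inl h3
      · rintro ⟨G, hG⟩ v ⟨hv, hnb⟩
        simp only [hBad] at hnb
        push Not at hnb
        obtain ⟨hv2, hvb, hvε⟩ := hnb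
        have := charP_res v hv
        have : Fact (Ideal.absNorm v.asIdeal).Prime := ⟨hv⟩
        have hmod : ∀ t : Option (Exps d) → ℕ, ∀ j, (t j : v.asIdeal.ResidueField) =
            ((t j % Ideal.absNorm v.asIdeal : ℕ) : v.asIdeal.ResidueField) := fun t j =>
          (CharP.natCast_eq_natCast' _ (Ideal.absNorm v.asIdeal) (Nat.mod_modEq _ _)).symm
        refine ⟨?_, ?_⟩
        · intro t
          unfold GoodOrd
          rw [red_member, red_member]
          simp only [← hmod]
        · have hcn := card_res v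
          have hfinite : Finite v.asIdeal.ResidueField :=
            Nat.finite_of_card_ne_zero (by rw [hcn]; exact hv.ne_zero)
          have : Fintype v.asIdeal.ResidueField := Fintype.ofFinite _
          rw [Nat.card_eq_fintype_card] at hcn
          set S : Finset (Option (Exps d) → ℕ) := (Fintype.piFinset
            fun _ : Option (Exps d) => range (Ideal.absNorm v.asIdeal)).filter fun a =>
              GoodOrd d b v (member d b G fun j => (a j : 𝓞 K)) with hS
          refine ⟨S, ?_, ?_⟩
          · intro a ha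
            rw [hS, Finset.mem_filter, Fintype.mem_piFinset] at ha
            exact ⟨fun j => Finset.mem_range.mp (ha.1 j), ha.2⟩
          · have h1 := res_count (Ideal.absNorm v.asIdeal) hcn (by
                intro h
                apply hv2
                have h2 := Ideal.absNorm_mem v.asIdeal
                rw [h] at h2
                exact_mod_cast h2) d hd0
              (fun i => algebraMap (𝓞 K) v.asIdeal.ResidueField (b i)) (by
                intro i h
                rw [← map_natCast (algebraMap (𝓞 K) v.asIdeal.ResidueField), ← map_mul,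
                  Ideal.algebraMap_residueField_eq_zero, mul_comm] at h
                exact hvb i h) (red v G)
              (fun u hu => hG u (support_map_subset _ _ hu)) S (by
                intro a ha h2 h3
                rw [hS, Finset.mem_filter, Fintype.mem_piFinset]
                refine ⟨fun j => Finset.mem_range.mpr (ha j), hv2, hvb, ?_, ?_⟩
                · rw [red_member]
                  exact h2
                · rw [red_member]
                  exact h3)
            refine le_trans ?_ h1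
            have h2 : (0 : ℝ) < Ideal.absNorm v.asIdeal := by exact_mod_cast hv.pos
            have h3 : ((∏ i, (d i - 1) : ℕ) : ℝ) / (Ideal.absNorm v.asIdeal : ℝ) ≤ ε := by
              rw [div_le_iff₀ h2]
              exact hvε
            linarith) η hη θ hθ0 hθ1
  refine ⟨A, fun G hG => ?_⟩
  obtain ⟨δ, hδ, h⟩ := hA ⟨G, hG⟩
  refine ⟨δ, fun Q => by have := hδ Q; rw [one_mul] at this; exact this, fun X Q₀ Q₁ hQ₀ => ?_⟩
  have h1 := h X Q₀ Q₁ hQ₀
  rw [Fintype.card_option, Nat.add_sub_cancel] at h1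
  simp only [true_and] at h1
  exact h1

end Pool.Agent.Q267.DC
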