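import Pool.Agent.Q267.DC.Abs
import Pool.Agent.Cov.PNT

/-!
# All scales at once
-/

set_option autoImplicit false

open Finset

namespace Pool.Agent.Q267.DC

open NumberField IsDedekindDomain Filter Topology
open Pool.Agent.W401.Cheb Pool.Agent.W528.Ord
open Pool.Agent.Q267.OD (allP)

/-- The number of places up to `N` with a property. -/
noncomputable def cnt {K : Type} [Field K] [NumberField K] (R : HeightOneSpectrum (𝓞 K) → Prop)
    (N : ℕ) : ℕ := Nat.card {v : HeightOneSpectrum (𝓞 K) // Ideal.absNorm v.asIdeal ≤ N ∧ R v}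

lemma cnt_le {K : Type} [Field K] [NumberField K] (R : HeightOneSpectrum (𝓞 K) → Prop)
    {M N : ℕ} (h : M ≤ N) : cnt R M ≤ cnt R N ∧ cnt R N + allP K M ≤ cnt R M + allP K N ∧
      allP K M ≤ allP K N := by
  classical
  have hfin : ∀ N, {v : HeightOneSpectrum (𝓞 K) | Ideal.absNorm v.asIdeal ≤ N}.Finite :=
    fun N => Pool.Agent.W352.ChAbs.finite_le (K := K) N
  have hc : ∀ N, cnt R N = ((hfin N).toFinset.filter fun v => R v).card := by
    intro N
    have h4 : {v : HeightOneSpectrum (𝓞 K) | Ideal.absNorm v.asIdeal ≤ N ∧ R v}.Finite :=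
      (hfin N).subset fun v hv => hv.1
    have h5 : cnt R N = h4.toFinset.card := Set.ncard_eq_toFinset_card _ h4
    rw [h5]
    congr 1
    ext v
    rw [Set.Finite.mem_toFinset, Finset.mem_filter, Set.Finite.mem_toFinset]
    rfl
  have ha : ∀ N, allP K N = (hfin N).toFinset.card :=
    fun N => Set.ncard_eq_toFinset_card _ (hfin N)
  have hsub : (hfin M).toFinset ⊆ (hfin N).toFinset := by
    intro v hv
    rw [Set.Finite.mem_toFinset] at hv ⊢
    exact le_trans hv h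
  rw [hc, hc, ha, ha]
  refine ⟨card_le_card (filter_subset_filter _ hsub), ?_, card_le_card hsub⟩
  have h1 : ((hfin N).toFinset.filter fun v => R v) ⊆
      ((hfin M).toFinset.filter fun v => R v) ∪ ((hfin N).toFinset \ (hfin M).toFinset) := by
    intro v hv
    rw [Finset.mem_filter] at hv
    by_cases h2 : v ∈ (hfin M).toFinset
    · exact Finset.mem_union_left _ (Finset.mem_filter.mpr ⟨h2, hv.2⟩)
    · exact Finset.mem_union_right _ (Finset.mem_sdiff.mpr ⟨hv.1, h2⟩)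
  have h2 := (card_le_card h1).trans (card_union_le _ _)
  rw [card_sdiff_of_subset hsub] at h2
  have h3 := card_le_card hsub
  omega

/-- The number of places and the prime number theorem. -/
lemma all_tendsto (K : Type) [Field K] [NumberField K] :
    Tendsto (fun N : ℕ => (allP K N : ℝ) * Real.log N / N) atTop (𝓝 1) := by
  have h1 : Tendsto (fun N : ℕ => (Nat.primeCounting N : ℝ) * Real.log N / N) atTop (𝓝 1) := by
    have h := Pool.Agent.Helper923.PNT.pi_tendsto.comp (tendsto_natCast_atTop_atTop (R := ℝ))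
    refine h.congr fun X => ?_
    simp
  have h2 := (dens_true' (K := K)).mul h1
  rw [one_mul] at h2
  refine h2.congr' ?_
  filter_upwards [eventually_ge_atTop 2] with N hN
  have h4 := Nat.monotone_primeCounting hN
  have h5 : Nat.primeCounting 2 = 1 := by decide
  have h6 : 0 < Nat.primeCounting N := by omega
  have h7 : (Nat.primeCounting N : ℝ) ≠ 0 := by positivity
  unfold allP
  field_simp

/-- A lower bound for the number of primes. -/
lemma pi_lower (θ : ℝ) (hθ : 0 < θ) : ∀ᶠ N : ℕ in atTop,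
    θ / 2 * (N : ℝ) ^ (1 - θ) ≤ Nat.primeCounting N := by
  have h1 : Tendsto (fun N : ℕ => (Nat.primeCounting N : ℝ) * Real.log N / N) atTop (𝓝 1) := by
    have h := Pool.Agent.Helper923.PNT.pi_tendsto.comp (tendsto_natCast_atTop_atTop (R := ℝ))
    refine h.congr fun X => ?_
    simp
  filter_upwards [h1.eventually (lt_mem_nhds (show (1 / 2 : ℝ) < 1 by norm_num)),
    eventually_ge_atTop 2] with N h2 hN
  have hN0 : (0 : ℝ) < N := by
    have : 0 < N := by omega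
    exact_mod_cast this
  rw [lt_div_iff₀ hN0] at h2
  have h3 : Real.log N ≤ (N : ℝ) ^ θ / θ := Real.log_le_rpow_div hN0.le hθ
  have h4 : (0 : ℝ) < (N : ℝ) ^ θ := Real.rpow_pos_of_pos hN0 _
  have h5 : (Nat.primeCounting N : ℝ) * Real.log N ≤ Nat.primeCounting N * ((N : ℝ) ^ θ / θ) :=
    mul_le_mul_of_nonneg_left h3 (Nat.cast_nonneg _)
  have h6 : 1 / 2 * (N : ℝ) ≤ Nat.primeCounting N * ((N : ℝ) ^ θ / θ) := h2.le.trans h5
  rw [Real.rpow_sub hN0, Real.rpow_one]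
  rw [mul_div_assoc', le_div_iff₀ hθ] at h6
  rw [← mul_div_assoc, div_le_iff₀ h4]
  linarith

/-- The grid. -/
lemma grid (K : Type) [Field K] [NumberField K] (ρ : ℝ) (hρ0 : 0 < ρ) (hρ1 : ρ ≤ 1 / 4) :
    ∃ N₂ : ℕ, ∀ j : ℕ, N₂ ≤ ⌊(1 + ρ) ^ j⌋₊ →
      (allP K ⌊(1 + ρ) ^ (j + 1)⌋₊ : ℝ) ≤ (1 + 3 * ρ) * allP K ⌊(1 + ρ) ^ j⌋₊ := by
  have hν0 : 0 < ρ / 10 := by positivity
  have h1 := (all_tendsto K).eventually (lt_mem_nhds (show 1 - ρ / 10 < (1 : ℝ) by linarith))
  have h2 := (all_tendsto K).eventually (gt_mem_nhds (show (1 : ℝ) < 1 + ρ / 10 by linarith))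
  obtain ⟨N₁, hN₁⟩ := (h1.and h2).exists_forall_of_atTop
  refine ⟨max N₁ (max 2 ⌈10 / ρ⌉₊), fun j hj => ?_⟩
  set N := ⌊(1 + ρ) ^ j⌋₊ with hN
  set M := ⌊(1 + ρ) ^ (j + 1)⌋₊ with hM
  have ha : (1 : ℝ) ≤ 1 + ρ := by linarith
  have hN1 : N₁ ≤ N := (le_max_left _ _).trans hj
  have hN2 : 2 ≤ N := (le_max_left _ _).trans ((le_max_right _ _).trans hj)
  have hN3 : 10 / ρ ≤ (N : ℝ) := by
    have h3 : ⌈10 / ρ⌉₊ ≤ N := (le_max_right _ _).trans ((le_max_right _ _).trans hj)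
    exact (Nat.le_ceil _).trans (by exact_mod_cast h3)
  have hNM : N ≤ M := Nat.floor_mono (pow_le_pow_right₀ ha (Nat.le_succ j))
  obtain ⟨h3, _⟩ := hN₁ N hN1
  obtain ⟨_, h4⟩ := hN₁ M (hN1.trans hNM)
  have hN0 : (0 : ℝ) < N := by
    have : 0 < N := by omega
    exact_mod_cast this
  have hM0 : (0 : ℝ) < M := by
    have : 0 < M := by omega
    exact_mod_cast this
  have hlogN : 0 < Real.log N := Real.log_pos (by exact_mod_cast (by omega : 1 < N))
  have hlogM : Real.log N ≤ Real.log M := Real.log_le_log hN0 (by exact_mod_cast hNM)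
  rw [lt_div_iff₀ hN0] at h3
  rw [div_lt_iff₀ hM0] at h4
  have hMN : (M : ℝ) ≤ (1 + ρ) * ((1 + ρ / 10) * N) := by
    have h5 : (M : ℝ) ≤ (1 + ρ) ^ (j + 1) := Nat.floor_le (by positivity)
    have h6 : (1 + ρ) ^ j < (N : ℝ) + 1 := Nat.lt_floor_add_one _
    have h7 : (1 : ℝ) ≤ ρ / 10 * N := by
      rw [div_le_iff₀ hρ0] at hN3
      linarith
    calc (M : ℝ) ≤ (1 + ρ) ^ j * (1 + ρ) := by rw [← pow_succ]; exact h5
      _ ≤ ((1 + ρ / 10) * N) * (1 + ρ) := by
          refine mul_le_mul_of_nonneg_right ?_ (by linarith)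
          linarith
      _ = _ := by ring
  -- `all M log N ≤ (1 + ν) M` and so on
  have h5 : (allP K M : ℝ) * Real.log N ≤ (1 + ρ / 10) * M :=
    (mul_le_mul_of_nonneg_left hlogM (Nat.cast_nonneg _)).trans h4.le
  have h6 : (1 + ρ / 10) * (M : ℝ) ≤ (1 + ρ / 10) * ((1 + ρ) * ((1 + ρ / 10) * N)) :=
    mul_le_mul_of_nonneg_left hMN (by linarith)
  have h7 : (1 + ρ / 10) * ((1 + ρ) * ((1 + ρ / 10) * (N : ℝ))) ≤
      (1 + 3 * ρ) * ((1 - ρ / 10) * N) := by
    have h8 : (1 + ρ / 10) * ((1 + ρ) * (1 + ρ / 10)) ≤ (1 + 3 * ρ) * (1 - ρ / 10) := by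
      nlinarith [mul_pos hρ0 hρ0, mul_pos (mul_pos hρ0 hρ0) hρ0]
    calc _ = (1 + ρ / 10) * ((1 + ρ) * (1 + ρ / 10)) * (N : ℝ) := by ring
      _ ≤ (1 + 3 * ρ) * (1 - ρ / 10) * N := mul_le_mul_of_nonneg_right h8 hN0.le
      _ = _ := by ring
  have h8 : (1 + 3 * ρ) * ((1 - ρ / 10) * (N : ℝ)) ≤
      (1 + 3 * ρ) * ((allP K N : ℝ) * Real.log N) :=
    mul_le_mul_of_nonneg_left h3.le (by linarith)
  have h9 : (allP K M : ℝ) * Real.log N ≤ ((1 + 3 * ρ) * allP K N) * Real.log N := by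
    calc _ ≤ (1 + 3 * ρ) * ((allP K N : ℝ) * Real.log N) := h5.trans (h6.trans (h7.trans h8))
      _ = _ := by ring
  exact le_of_mul_le_mul_right h9 hlogN

end Pool.Agent.Q267.DC
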