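import Pool.Agent.Q267.OD.Sieve

/-!
# The large sieve for functions and in boxes
-/

set_option autoImplicit false

open Finset

namespace Pool.Agent.Q267.DC

/-- The variance of functions with values in `[0, 1]` instead of sets. -/
theorem var_fun {ι : Type*} (X Q D : ℕ) (V : Finset ι) (q : ι → ℕ)
    (hD : ∀ a, (V.filter fun v => q v = a).card ≤ D) (hq : ∀ v ∈ V, (q v).Prime)
    (hQ : ∀ v ∈ V, q v ≤ Q) (h : ι → ℕ → ℝ) (h0 : ∀ v a, 0 ≤ h v a) (h1 : ∀ v a, h v a ≤ 1) :
    ∑ n ∈ Icc 1 X, (∑ v ∈ V, (h v (n % q v) - (∑ a ∈ range (q v), h v a) / q v)) ^ 2 ≤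
    6 * D * ((X : ℝ) + (Q : ℝ) ^ 2) * V.card := by
  classical
  -- the functional
  let ext : ((V × Fin (Q + 1)) → ℝ) → ι → ℕ → ℝ := fun y v a =>
    if hv : v ∈ V ∧ a < Q + 1 then y (⟨v, hv.1⟩, ⟨a, hv.2⟩) else 0
  let Φ : ((V × Fin (Q + 1)) → ℝ) → ℝ := fun y =>
    ∑ n ∈ Icc 1 X, (∑ v ∈ V, (ext y v (n % q v) - (∑ a ∈ range (q v), ext y v a) / q v)) ^ 2
  have hlin : ∀ (x y : (V × Fin (Q + 1)) → ℝ) (a b : ℝ) (v : ι) (i : ℕ),
      ext (a • x + b • y) v i = a * ext x v i + b * ext y v i := by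
    intro x y a b v i
    simp only [ext]
    split_ifs with hv
    · rfl
    · ring
  have hconv : ConvexOn ℝ Set.univ Φ := by
    refine ⟨convex_univ, ?_⟩
    intro x _ y _ a b ha hb hab
    simp only [Φ, smul_eq_mul]
    rw [mul_sum, mul_sum, ← sum_add_distrib]
    refine sum_le_sum fun n _ => ?_
    have h2 : ∑ v ∈ V, (ext (a • x + b • y) v (n % q v) -
        (∑ i ∈ range (q v), ext (a • x + b • y) v i) / q v) =
        a * (∑ v ∈ V, (ext x v (n % q v) - (∑ i ∈ range (q v), ext x v i) / q v)) +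
        b * ∑ v ∈ V, (ext y v (n % q v) - (∑ i ∈ range (q v), ext y v i) / q v) := by
      rw [mul_sum, mul_sum, ← sum_add_distrib]
      refine sum_congr rfl fun v _ => ?_
      simp only [hlin, sum_add_distrib, ← mul_sum]
      ring
    rw [h2]
    have hb' : b = 1 - a := by linarith
    subst hb'
    nlinarith [mul_nonneg ha hb, sq_nonneg ((∑ v ∈ V, (ext x v (n % q v) -
      (∑ i ∈ range (q v), ext x v i) / q v)) - ∑ v ∈ V, (ext y v (n % q v) -
      (∑ i ∈ range (q v), ext y v i) / q v)), mul_nonneg (mul_nonneg ha hb)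
      (sq_nonneg ((∑ v ∈ V, (ext x v (n % q v) -
      (∑ i ∈ range (q v), ext x v i) / q v)) - ∑ v ∈ V, (ext y v (n % q v) -
      (∑ i ∈ range (q v), ext y v i) / q v)))]
  set y₀ : (V × Fin (Q + 1)) → ℝ := fun j => h j.1.1 j.2 with hy₀
  have hmem : y₀ ∈ convexHull ℝ (Set.pi Set.univ fun _ : V × Fin (Q + 1) => ({0, 1} : Set ℝ)) := by
    rw [convexHull_pi]
    intro j _
    rw [convexHull_pair, segment_eq_Icc (zero_le_one)]
    exact ⟨h0 _ _, h1 _ _⟩
  obtain ⟨y, hy, hle⟩ := hconv.exists_ge_of_mem_convexHull (Set.subset_univ _) hmem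
  have hext : ∀ (z : (V × Fin (Q + 1)) → ℝ), ∀ v ∈ V, ∀ a, a < q v →
      ∃ j : V × Fin (Q + 1), j.1.1 = v ∧ (j.2 : ℕ) = a ∧ ext z v a = z j := by
    intro z v hv a ha
    have h2 : v ∈ V ∧ a < Q + 1 := ⟨hv, by have := hQ v hv; omega⟩
    refine ⟨(⟨v, h2.1⟩, ⟨a, h2.2⟩), rfl, rfl, ?_⟩
    simp only [ext]
    rw [dif_pos h2]
  have hΦ0 : Φ y₀ = ∑ n ∈ Icc 1 X,
      (∑ v ∈ V, (h v (n % q v) - (∑ a ∈ range (q v), h v a) / q v)) ^ 2 := by
    simp only [Φ]
    refine sum_congr rfl fun n _ => ?_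
    congr 1
    refine sum_congr rfl fun v hv => ?_
    have h2 : ∀ a, a < q v → ext y₀ v a = h v a := by
      intro a ha
      obtain ⟨j, hj1, hj2, hj3⟩ := hext y₀ v hv a ha
      rw [hj3, hy₀]
      simp only
      rw [hj1, hj2]
    rw [h2 _ (Nat.mod_lt _ (hq v hv).pos)]
    congr 2
    exact sum_congr rfl fun a ha => h2 a (mem_range.mp ha)
  rw [← hΦ0]
  refine hle.trans ?_
  -- the vertex is a family of sets
  set B : ι → Finset ℕ := fun v => (range (q v)).filter fun a => ext y v a = 1 with hB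
  have hval : ∀ v ∈ V, ∀ a, a < q v → ext y v a = if a ∈ B v then (1 : ℝ) else 0 := by
    intro v hv a ha
    obtain ⟨j, hj1, hj2, hj3⟩ := hext y v hv a ha
    have h2 := hy j (Set.mem_univ _)
    rw [← hj3] at h2
    rcases h2 with h2 | h2
    · rw [if_neg, h2]
      simp only [hB, mem_filter, not_and]
      intro _
      rw [h2]
      exact zero_ne_one
    · rw [if_pos, h2]
      simp only [hB, mem_filter, mem_range]
      exact ⟨ha, h2⟩
  have hΦy : Φ y = ∑ n ∈ Icc 1 X, (∑ v ∈ V, ((if n % q v ∈ B v then (1 : ℝ) else 0) -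
      ((B v).card : ℝ) / q v)) ^ 2 := by
    simp only [Φ]
    refine sum_congr rfl fun n _ => ?_
    congr 1
    refine sum_congr rfl fun v hv => ?_
    rw [hval v hv _ (Nat.mod_lt _ (hq v hv).pos)]
    congr 2
    rw [sum_congr rfl fun a ha => hval v hv a (mem_range.mp ha), sum_boole]
    congr 2
    ext a
    simp only [hB, mem_filter]
    tauto
  rw [hΦy]
  refine (Pool.Agent.Q267.OD.var X Q D V q hD hq hQ B fun v _ => filter_subset _ _).trans ?_
  refine mul_le_mul_of_nonneg_left ?_ (by positivity)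
  calc ∑ v ∈ V, ((B v).card : ℝ) / q v ≤ ∑ _v ∈ V, (1 : ℝ) := by
        refine sum_le_sum fun v hv => ?_
        have h2 : (0 : ℝ) < q v := by exact_mod_cast (hq v hv).pos
        rw [div_le_one h2]
        have h3 := card_le_card (filter_subset (fun a => ext y v a = 1) (range (q v)))
        rw [card_range] at h3
        exact_mod_cast h3
    _ = V.card := by rw [sum_const, nsmul_eq_mul, mul_one]

/-- The sum over a box, first variable apart. -/
lemma sum_box_succ {m : ℕ} (A : Finset ℕ) (f : (Fin (m + 1) → ℕ) → ℝ) :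
    ∑ t ∈ Fintype.piFinset (fun _ : Fin (m + 1) => A), f t =
      ∑ x ∈ A, ∑ t ∈ Fintype.piFinset (fun _ : Fin m => A), f (Fin.cons x t) := by
  rw [← Finset.sum_product']
  refine (Finset.sum_nbij' (fun x : ℕ × (Fin m → ℕ) => (Fin.cons x.1 x.2 : Fin (m + 1) → ℕ))
    (fun t => (t 0, Fin.tail t)) ?_ ?_ ?_ ?_ ?_).symm
  · intro x hx
    rw [Finset.mem_product, Fintype.mem_piFinset] at hx
    rw [Fintype.mem_piFinset]
    intro i
    refine Fin.cases ?_ (fun j => ?_) i
    · exact hx.1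
    · exact hx.2 j
  · intro t ht
    rw [Fintype.mem_piFinset] at ht
    rw [Finset.mem_product, Fintype.mem_piFinset]
    exact ⟨ht 0, fun j => ht j.succ⟩
  · intro x _
    simp
  · intro t _
    simp
  · intro x _
    rfl

/-- **The variance in a box.** -/
theorem mvar {ι : Type*} (X Q D : ℕ) (V : Finset ι) (q : ι → ℕ)
    (hD : ∀ a, (V.filter fun v => q v = a).card ≤ D) (hq : ∀ v ∈ V, (q v).Prime)
    (hQ : ∀ v ∈ V, q v ≤ Q) (m : ℕ) (g : ι → (Fin m → ℕ) → ℝ) (h0 : ∀ v a, 0 ≤ g v a)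
    (h1 : ∀ v a, g v a ≤ 1) :
    ∑ t ∈ Fintype.piFinset (fun _ : Fin m => Icc 1 X), (∑ v ∈ V, (g v (fun i => t i % q v) -
      (∑ a ∈ Fintype.piFinset (fun _ : Fin m => range (q v)), g v a) / (q v : ℝ) ^ m)) ^ 2 ≤
    6 * D * ((X : ℝ) + (Q : ℝ) ^ 2) * V.card * ((4 ^ m - 1) * (X : ℝ) ^ (m - 1)) := by
  classical
  set Cc : ℝ := 6 * D * ((X : ℝ) + (Q : ℝ) ^ 2) * V.card with hCc
  have hC0 : 0 ≤ Cc := by positivity
  induction m with
  | zero =>
    have h2 : ∀ t ∈ Fintype.piFinset (fun _ : Fin 0 => Icc 1 X),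
        (∑ v ∈ V, (g v (fun i => t i % q v) -
        (∑ a ∈ Fintype.piFinset (fun _ : Fin 0 => range (q v)), g v a) / (q v : ℝ) ^ 0)) ^ 2 = 0 := by
      intro t _
      have h3 : ∀ v ∈ V, (g v (fun i => t i % q v) -
        (∑ a ∈ Fintype.piFinset (fun _ : Fin 0 => range (q v)), g v a) / (q v : ℝ) ^ 0) = 0 := by
        intro v _
        rw [Fintype.piFinset_of_isEmpty, pow_zero, div_one]
        rw [Fintype.sum_unique, sub_eq_zero]
        congr 1
        exact Subsingleton.elim _ _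
      rw [sum_eq_zero h3]
      ring
    rw [sum_eq_zero h2]
    norm_num
  | succ m ih =>
    set mean : ι → ℝ := fun v =>
      (∑ a ∈ Fintype.piFinset (fun _ : Fin (m + 1) => range (q v)), g v a) / (q v : ℝ) ^ (m + 1)
      with hmean
    -- the partial means
    set h : ι → ℕ → ℝ := fun v x =>
      (∑ a ∈ Fintype.piFinset (fun _ : Fin m => range (q v)), g v (Fin.cons x a)) / (q v : ℝ) ^ m
      with hh
    have hcardq : ∀ v, ((Fintype.piFinset (fun _ : Fin m => range (q v))).card : ℝ) =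
        (q v : ℝ) ^ m := by
      intro v
      rw [Fintype.card_piFinset]
      simp
    have hh0 : ∀ v x, 0 ≤ h v x := fun v x =>
      div_nonneg (sum_nonneg fun _ _ => h0 _ _) (by positivity)
    have hh1 : ∀ v x, h v x ≤ 1 := by
      intro v x
      refine div_le_one_of_le₀ ?_ (by positivity)
      rw [← hcardq]
      calc _ ≤ ∑ _a ∈ Fintype.piFinset (fun _ : Fin m => range (q v)), (1 : ℝ) :=
            sum_le_sum fun _ _ => h1 _ _
        _ = _ := by rw [sum_const, nsmul_eq_mul, mul_one]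
    have hmeanh : ∀ v ∈ V, mean v = (∑ x ∈ range (q v), h v x) / q v := by
      intro v hv
      have h2 : (q v : ℝ) ≠ 0 := by exact_mod_cast (hq v hv).ne_zero
      rw [hmean, hh]
      simp only
      rw [sum_box_succ, ← sum_div, div_div, pow_succ]
    have hdec : ∀ x t, (∑ v ∈ V, (g v (fun i => (Fin.cons x t : Fin (m + 1) → ℕ) i % q v) -
        mean v)) ^ 2 ≤
        2 * (∑ v ∈ V, (g v (Fin.cons (x % q v) fun i => t i % q v) - h v (x % q v))) ^ 2 +
        2 * (∑ v ∈ V, (h v (x % q v) - mean v)) ^ 2 := by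
      intro x t
      have h2 : ∀ v, (fun i => (Fin.cons x t : Fin (m + 1) → ℕ) i % q v) =
          (Fin.cons (x % q v) fun i => t i % q v : Fin (m + 1) → ℕ) := by
        intro v
        funext i
        refine Fin.cases ?_ (fun j => ?_) i
        · rfl
        · rfl
      have h3 : ∑ v ∈ V, (g v (fun i => (Fin.cons x t : Fin (m + 1) → ℕ) i % q v) - mean v) =
          (∑ v ∈ V, (g v (Fin.cons (x % q v) fun i => t i % q v) - h v (x % q v))) +
          ∑ v ∈ V, (h v (x % q v) - mean v) := by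
        rw [← sum_add_distrib]
        refine sum_congr rfl fun v _ => ?_
        rw [h2]
        ring
      rw [h3]
      nlinarith [sq_nonneg ((∑ v ∈ V, (g v (Fin.cons (x % q v) fun i => t i % q v) -
        h v (x % q v))) - ∑ v ∈ V, (h v (x % q v) - mean v))]
    rw [sum_box_succ]
    calc ∑ x ∈ Icc 1 X, ∑ t ∈ Fintype.piFinset (fun _ : Fin m => Icc 1 X),
          (∑ v ∈ V, (g v (fun i => (Fin.cons x t : Fin (m + 1) → ℕ) i % q v) - mean v)) ^ 2
        ≤ ∑ x ∈ Icc 1 X, ∑ t ∈ Fintype.piFinset (fun _ : Fin m => Icc 1 X),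
          (2 * (∑ v ∈ V, (g v (Fin.cons (x % q v) fun i => t i % q v) - h v (x % q v))) ^ 2 +
          2 * (∑ v ∈ V, (h v (x % q v) - mean v)) ^ 2) :=
          sum_le_sum fun x _ => sum_le_sum fun t _ => hdec x t
      _ = 2 * (∑ x ∈ Icc 1 X, ∑ t ∈ Fintype.piFinset (fun _ : Fin m => Icc 1 X),
          (∑ v ∈ V, (g v (Fin.cons (x % q v) fun i => t i % q v) - h v (x % q v))) ^ 2) +
          2 * (X : ℝ) ^ m * ∑ x ∈ Icc 1 X, (∑ v ∈ V, (h v (x % q v) - mean v)) ^ 2 := by
          simp only [sum_add_distrib, ← mul_sum, sum_const, nsmul_eq_mul, Fintype.card_piFinset,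
            prod_const, card_univ, Fintype.card_fin, Nat.card_Icc, Nat.add_sub_cancel,
            Nat.cast_pow]
          ring
      _ ≤ 2 * (∑ _x ∈ Icc 1 X, Cc * ((4 ^ m - 1) * (X : ℝ) ^ (m - 1))) +
          2 * (X : ℝ) ^ m * Cc := by
          refine add_le_add (mul_le_mul_of_nonneg_left (sum_le_sum fun x _ => ?_) (by norm_num))
            (mul_le_mul_of_nonneg_left ?_ (by positivity))
          · exact ih (fun v a => g v (Fin.cons (x % q v) a)) (fun _ _ => h0 _ _) fun _ _ => h1 _ _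
          · have h2 := var_fun X Q D V q hD hq hQ h hh0 hh1
            refine le_trans (le_of_eq ?_) h2
            refine sum_congr rfl fun x _ => ?_
            congr 1
            exact sum_congr rfl fun v hv => by rw [hmeanh v hv]
      _ ≤ Cc * ((4 ^ (m + 1) - 1) * (X : ℝ) ^ (m + 1 - 1)) := by
          rw [sum_const, nsmul_eq_mul, Nat.card_Icc, Nat.add_sub_cancel, Nat.add_sub_cancel]
          have hX : (X : ℝ) * ((4 ^ m - 1) * (X : ℝ) ^ (m - 1)) = (4 ^ m - 1) * (X : ℝ) ^ m := by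
            rcases m with _ | m
            · norm_num
            · rw [Nat.add_sub_cancel, pow_succ (X : ℝ)]
              ring
          have h2 : 2 * ((X : ℝ) * (Cc * ((4 ^ m - 1) * (X : ℝ) ^ (m - 1)))) =
              2 * Cc * ((4 ^ m - 1) * (X : ℝ) ^ m) := by
            rw [← hX]
            ring
          rw [h2, pow_succ (4 : ℝ)]
          have h3 : (1 : ℝ) ≤ 4 ^ m := one_le_pow₀ (by norm_num)
          have h4 : 0 ≤ Cc * (X : ℝ) ^ m := by positivity
          nlinarith [mul_nonneg h4 (show (0 : ℝ) ≤ 4 ^ m - 1 by linarith)]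

/-- The same for any finite set of coordinates. -/
theorem mvar' {ι : Type*} (X Q D : ℕ) (V : Finset ι) (q : ι → ℕ)
    (hD : ∀ a, (V.filter fun v => q v = a).card ≤ D) (hq : ∀ v ∈ V, (q v).Prime)
    (hQ : ∀ v ∈ V, q v ≤ Q) (J : Type*) [Fintype J] [DecidableEq J] (g : ι → (J → ℕ) → ℝ)
    (h0 : ∀ v a, 0 ≤ g v a) (h1 : ∀ v a, g v a ≤ 1) :
    ∑ t ∈ Fintype.piFinset (fun _ : J => Icc 1 X), (∑ v ∈ V, (g v (fun i => t i % q v) -
      (∑ a ∈ Fintype.piFinset (fun _ : J => range (q v)), g v a) /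
        (q v : ℝ) ^ Fintype.card J)) ^ 2 ≤
    6 * D * ((X : ℝ) + (Q : ℝ) ^ 2) * V.card *
      ((4 ^ Fintype.card J - 1) * (X : ℝ) ^ (Fintype.card J - 1)) := by
  classical
  set e := Fintype.equivFin J with he
  have hsum : ∀ (A : Finset ℕ) (f : (J → ℕ) → ℝ), ∑ t ∈ Fintype.piFinset (fun _ : J => A), f t =
      ∑ t ∈ Fintype.piFinset (fun _ : Fin (Fintype.card J) => A), f fun j => t (e j) := by
    intro A f
    refine Finset.sum_nbij' (fun t => fun i => t (e.symm i)) (fun t => fun j => t (e j)) ?_ ?_ ?_ ?_ ?_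
    · intro t ht
      rw [Fintype.mem_piFinset] at ht ⊢
      exact fun i => ht _
    · intro t ht
      rw [Fintype.mem_piFinset] at ht ⊢
      exact fun i => ht _
    · intro t _
      funext j
      simp
    · intro t _
      funext j
      simp
    · intro t _
      simp
  rw [hsum]
  have h2 := mvar X Q D V q hD hq hQ (Fintype.card J) (fun v a => g v fun j => a (e j))
    (fun _ _ => h0 _ _) fun _ _ => h1 _ _
  refine le_trans (le_of_eq ?_) h2
  refine sum_congr rfl fun t _ => ?_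
  congr 1
  refine sum_congr rfl fun v _ => ?_
  rw [hsum]

/-- **Concentration.** Few points of the box have an unusual number of good moduli. -/
theorem conc {ι : Type*} (X Q D : ℕ) (V : Finset ι) (q : ι → ℕ)
    (hD : ∀ a, (V.filter fun v => q v = a).card ≤ D) (hq : ∀ v ∈ V, (q v).Prime)
    (hQ : ∀ v ∈ V, q v ≤ Q) (J : Type*) [Fintype J] [DecidableEq J]
    (G : ι → (J → ℕ) → Prop) [∀ v a, Decidable (G v a)] (ε : ℝ) (hε : 0 ≤ ε)
    (E : Finset (J → ℕ)) (hE : ∀ t ∈ E, (∀ j, 1 ≤ t j ∧ t j ≤ X) ∧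
      ε * V.card ≤ |((V.filter fun v => G v fun j => t j % q v).card : ℝ) -
        ∑ v ∈ V, (((Fintype.piFinset (fun _ : J => range (q v))).filter fun a => G v a).card : ℝ) /
          (q v : ℝ) ^ Fintype.card J|) :
    ε ^ 2 * V.card * E.card ≤ 6 * D * ((X : ℝ) + (Q : ℝ) ^ 2) *
      ((4 ^ Fintype.card J - 1) * (X : ℝ) ^ (Fintype.card J - 1)) := by
  classical
  rcases V.eq_empty_or_nonempty with hV | ⟨v₀, hv₀⟩
  · subst hV
    rw [card_empty, Nat.cast_zero, mul_zero, zero_mul]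
    have h3 : (1 : ℝ) ≤ 4 ^ Fintype.card J := one_le_pow₀ (by norm_num)
    have h4 : (0 : ℝ) ≤ 4 ^ Fintype.card J - 1 := by linarith
    positivity
  have hVpos : (0 : ℝ) < V.card := by exact_mod_cast card_pos.mpr ⟨v₀, hv₀⟩
  have h1 := mvar' X Q D V q hD hq hQ J (fun v a => if G v a then (1 : ℝ) else 0)
    (fun v a => by split_ifs <;> norm_num) (fun v a => by split_ifs <;> norm_num)
  have h2 : ∑ _t ∈ E, (ε * V.card) ^ 2 ≤ ∑ t ∈ Fintype.piFinset (fun _ : J => Icc 1 X),
      (∑ v ∈ V, ((if G v (fun i => t i % q v) then (1 : ℝ) else 0) -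
      (∑ a ∈ Fintype.piFinset (fun _ : J => range (q v)), if G v a then (1 : ℝ) else 0) /
        (q v : ℝ) ^ Fintype.card J)) ^ 2 := by
    have hsub : E ⊆ Fintype.piFinset (fun _ : J => Icc 1 X) := by
      intro t ht
      rw [Fintype.mem_piFinset]
      intro j
      rw [Finset.mem_Icc]
      exact (hE t ht).1 j
    refine le_trans (sum_le_sum fun t ht => ?_)
      (sum_le_sum_of_subset_of_nonneg hsub fun _ _ _ => sq_nonneg _)
    have h3 : ∑ v ∈ V, ((if G v (fun i => t i % q v) then (1 : ℝ) else 0) -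
      (∑ a ∈ Fintype.piFinset (fun _ : J => range (q v)), if G v a then (1 : ℝ) else 0) /
        (q v : ℝ) ^ Fintype.card J) = ((V.filter fun v => G v fun j => t j % q v).card : ℝ) -
        ∑ v ∈ V, (((Fintype.piFinset (fun _ : J => range (q v))).filter fun a => G v a).card : ℝ) /
          (q v : ℝ) ^ Fintype.card J := by
      rw [sum_sub_distrib, sum_boole]
      simp only [sum_boole]
    rw [h3, ← sq_abs (((V.filter fun v => G v fun j => t j % q v).card : ℝ) - _)]
    exact pow_le_pow_left₀ (by positivity) (hE t ht).2 2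
  rw [sum_const, nsmul_eq_mul] at h2
  have h3 := h2.trans h1
  have h4 : (V.card : ℝ) * (ε ^ 2 * V.card * E.card) ≤ V.card * (6 * D * ((X : ℝ) + (Q : ℝ) ^ 2) *
      ((4 ^ Fintype.card J - 1) * (X : ℝ) ^ (Fintype.card J - 1))) := by nlinarith
  exact le_of_mul_le_mul_left h4 hVpos

end Pool.Agent.Q267.DC
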