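import Pool.Agent.Q267.OD.Fin
import Pool.Agent.Q267.DC.MSieve

/-!
# Concentration of the number of good places in boxes of parameters
-/

set_option autoImplicit false

open Finset

namespace Pool.Agent.Q267.DC

open NumberField IsDedekindDomain Filter Topology
open Pool.Agent.W401.Cheb Pool.Agent.W528.Ord
open Pool.Agent.Q267.OD (allP)

lemma aux2 {β κ η ν ε : ℝ} (hβ0 : 0 ≤ β) (hβ1 : β ≤ 1) (hκ1 : κ ≤ 1)
    (hη : 0 ≤ η) (hν0 : 0 ≤ ν) (hν1 : ν ≤ η / 4) (hε : ε = η / 4) :
    (κ * β - η) * (1 + ν) ≤ (β - ε) * (κ - ν) := by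
  have h1 : κ * β ≤ 1 := mul_le_one₀ hκ1 hβ0 hβ1
  have ha : κ * β * ν ≤ 1 * ν := mul_le_mul_of_nonneg_right h1 hν0
  have hb : β * ν ≤ 1 * ν := mul_le_mul_of_nonneg_right hβ1 hν0
  have hc : η / 4 * κ ≤ η / 4 * 1 := mul_le_mul_of_nonneg_left hκ1 (by linarith)
  have hd : 0 ≤ η * ν := mul_nonneg hη hν0
  have e1 : (κ * β - η) * (1 + ν) = κ * β + κ * β * ν - η - η * ν := by ring
  have e2 : (β - ε) * (κ - ν) = κ * β - β * ν - η / 4 * κ + η * ν / 4 := by
    rw [hε]; ring
  rw [e1, e2]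
  linarith

/-- **Concentration for families of conditions at places.** -/
theorem abs_conc (K : Type) [Field K] [NumberField K] {J : Type*} [Fintype J] [DecidableEq J]
    {Γ : Type*} (O : Γ → HeightOneSpectrum (𝓞 K) → (J → ℕ) → Prop)
    (P : HeightOneSpectrum (𝓞 K) → Prop) (κ : ℝ) (hκ0 : 0 < κ) (hκ1 : κ ≤ 1)
    (hP : Tendsto (dens P) atTop (𝓝 κ)) (β : ℝ) (hβ0 : 0 ≤ β) (hβ1 : β ≤ 1)
    (hV : ∀ ε : ℝ, 0 < ε → ∃ V : HeightOneSpectrum (𝓞 K) → Prop,
      Tendsto (dens fun v => P v ∧ ¬ V v) atTop (𝓝 0) ∧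
      (∀ v, V v → P v ∧ (Ideal.absNorm v.asIdeal).Prime) ∧
      ∀ g v, V v → (∀ t, O g v t ↔ O g v fun j => t j % Ideal.absNorm v.asIdeal) ∧
        ∃ S : Finset (J → ℕ), (∀ a ∈ S, (∀ j, a j < Ideal.absNorm v.asIdeal) ∧ O g v a) ∧
          β - ε ≤ (S.card : ℝ) / (Ideal.absNorm v.asIdeal : ℝ) ^ Fintype.card J)
    (η : ℝ) (hη : 0 < η) :
    ∃ (A : ℝ) (N₀ : ℕ), 0 ≤ A ∧ 2 ≤ N₀ ∧ ∀ (g : Γ) (Q : ℕ), ∃ δ : ℝ, κ * β - η ≤ δ ∧ 0 ≤ δ ∧
      δ ≤ 1 ∧ (N₀ ≤ Q → ∀ X : ℕ,
      ({t : J → ℕ | (∀ j, 1 ≤ t j ∧ t j ≤ X) ∧ η * allP K Q <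
        |(Nat.card {v : HeightOneSpectrum (𝓞 K) //
          Ideal.absNorm v.asIdeal ≤ Q ∧ P v ∧ O g v t} : ℝ) -
          δ * allP K Q|}.ncard : ℝ) * Nat.primeCounting Q ≤
        A * (((X : ℝ) + (Q : ℝ) ^ 2) * (X : ℝ) ^ (Fintype.card J - 1))) := by
  classical
  set m := Fintype.card J with hm
  obtain ⟨ε, hε⟩ : ∃ ε : ℝ, ε = η / 4 := ⟨_, rfl⟩
  have hε0 : 0 < ε := by rw [hε]; positivity
  obtain ⟨ν, hν⟩ : ∃ ν : ℝ, ν = min (min (η / 4) (κ / 2)) (1 / 2) := ⟨_, rfl⟩
  have hν0 : 0 < ν := by rw [hν]; positivity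
  have hν1 : ν ≤ η / 4 := by rw [hν]; exact (min_le_left _ _).trans (min_le_left _ _)
  have hν2 : ν ≤ κ / 2 := by rw [hν]; exact (min_le_left _ _).trans (min_le_right _ _)
  have hν3 : ν ≤ 1 / 2 := by rw [hν]; exact min_le_right _ _
  obtain ⟨V, hV0, hV1, hV2⟩ := hV ε hε0
  have hev : ∀ᶠ N : ℕ in atTop, κ - ν < dens V N := by
    filter_upwards [hP.eventually (lt_mem_nhds (show κ - ν / 2 < κ by linarith)),
      hV0.eventually (gt_mem_nhds (show (0 : ℝ) < ν / 2 by positivity))] with N h1 h2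
    have h3 : dens P N ≤ dens V N + dens (fun v => P v ∧ ¬ V v) N := by
      refine le_trans (dens_mono (Q := fun v => V v ∨ (P v ∧ ¬ V v)) ?_ N) (dens_or _ _ N)
      intro v hv
      by_cases h : V v
      · exact Or.inl h
      · exact Or.inr ⟨hv, h⟩
    linarith
  have hall1 := (dens_true' (K := K)).eventually (gt_mem_nhds (show (1 : ℝ) < 1 + ν by linarith))
  have hall2 := (dens_true' (K := K)).eventually (lt_mem_nhds (show 1 - ν < (1 : ℝ) by linarith))
  have hsmall := hV0.eventually (gt_mem_nhds hν0)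
  obtain ⟨N₁, hN₁⟩ := (hev.and (hall1.and (hall2.and
    (hsmall.and (eventually_ge_atTop 2))))).exists_forall_of_atTop
  obtain ⟨N₀, hN₀1, hN₀2⟩ : ∃ N₀, N₁ ≤ N₀ ∧ 2 ≤ N₀ := ⟨max N₁ 2, le_max_left _ _, le_max_right _ _⟩
  obtain ⟨D, hD⟩ : ∃ D : ℝ, D = (Module.finrank ℚ K : ℝ) := ⟨_, rfl⟩
  have hD0 : 0 ≤ D := by rw [hD]; exact Nat.cast_nonneg _
  have h4m : (1 : ℝ) ≤ 4 ^ m := one_le_pow₀ (by norm_num)
  have hconst : 0 ≤ 48 * D * (4 ^ m - 1) / (η ^ 2 * κ) := by
    have : (0 : ℝ) ≤ 4 ^ m - 1 := by linarith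
    positivity
  refine ⟨48 * D * (4 ^ m - 1) / (η ^ 2 * κ), N₀, hconst, hN₀2, fun g Q => ?_⟩
  by_cases hQN : Q < N₀
  · refine ⟨κ * β, by linarith, mul_nonneg hκ0.le hβ0, mul_le_one₀ hκ1 hβ0 hβ1, fun h => ?_⟩
    omega
  push Not at hQN
  obtain ⟨h1, h2, h2', h2'', h3⟩ := hN₁ Q (hN₀1.trans hQN)
  have hπ : (0 : ℝ) < Nat.primeCounting Q := by
    have h4 := Nat.monotone_primeCounting h3
    have h5 : Nat.primeCounting 2 = 1 := by decide
    have h6 : 0 < Nat.primeCounting Q := by omega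
    exact_mod_cast h6
  have hfinQ : {v : HeightOneSpectrum (𝓞 K) | Ideal.absNorm v.asIdeal ≤ Q}.Finite :=
    Pool.Agent.W352.ChAbs.finite_le (K := K) Q
  set W := hfinQ.toFinset.filter fun v => V v with hW
  have hWmem : ∀ v, v ∈ W ↔ Ideal.absNorm v.asIdeal ≤ Q ∧ V v := fun v => by
    rw [hW, Finset.mem_filter, Set.Finite.mem_toFinset]
    rfl
  have hcard : ∀ (R : HeightOneSpectrum (𝓞 K) → Prop) [DecidablePred R],
      Nat.card {v : HeightOneSpectrum (𝓞 K) // Ideal.absNorm v.asIdeal ≤ Q ∧ R v} =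
      (hfinQ.toFinset.filter fun v => R v).card := by
    intro R _
    have h4 : {v : HeightOneSpectrum (𝓞 K) | Ideal.absNorm v.asIdeal ≤ Q ∧ R v}.Finite :=
      hfinQ.subset fun v hv => hv.1
    have h5 : Nat.card {v : HeightOneSpectrum (𝓞 K) // Ideal.absNorm v.asIdeal ≤ Q ∧ R v} =
        h4.toFinset.card := Set.ncard_eq_toFinset_card _ h4
    rw [h5]
    congr 1
    ext v
    rw [Set.Finite.mem_toFinset, Finset.mem_filter, Set.Finite.mem_toFinset]
    rfl
  have hallc : allP K Q = hfinQ.toFinset.card := Set.ncard_eq_toFinset_card _ hfinQ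
  have hWcard : (κ - ν) * Nat.primeCounting Q ≤ (W.card : ℝ) := by
    unfold Pool.Agent.W401.Cheb.dens at h1
    rw [hcard V, lt_div_iff₀ hπ] at h1
    exact h1.le
  have hsm : ((hfinQ.toFinset.filter fun v => P v ∧ ¬ V v).card : ℝ) ≤
      ν * Nat.primeCounting Q := by
    unfold Pool.Agent.W401.Cheb.dens at h2''
    rw [hcard (fun v => P v ∧ ¬ V v), div_lt_iff₀ hπ] at h2''
    exact h2''.le
  have hallu : (allP K Q : ℝ) ≤ (1 + ν) * Nat.primeCounting Q := by
    rw [div_lt_iff₀ hπ] at h2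
    exact h2.le
  have halll : (1 - ν) * Nat.primeCounting Q ≤ (allP K Q : ℝ) := by
    rw [lt_div_iff₀ hπ] at h2'
    exact h2'.le
  have hall0 : (0 : ℝ) < allP K Q := by
    have h4 : 0 < (1 - ν) * (Nat.primeCounting Q : ℝ) := mul_pos (by linarith) hπ
    linarith
  have hWall : (W.card : ℝ) ≤ allP K Q := by
    rw [hallc]
    exact_mod_cast card_le_card (filter_subset _ _)
  -- the expected number
  set S : ℝ := ∑ v ∈ W, (((Fintype.piFinset
    (fun _ : J => range (Ideal.absNorm v.asIdeal))).filter fun a => O g v a).card : ℝ) /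
      (Ideal.absNorm v.asIdeal : ℝ) ^ m with hS
  have hS0 : 0 ≤ S := sum_nonneg fun v _ =>
    div_nonneg (Nat.cast_nonneg _) (pow_nonneg (Nat.cast_nonneg _) _)
  have hS1 : S ≤ W.card := by
    calc S ≤ ∑ _v ∈ W, (1 : ℝ) := by
          refine sum_le_sum fun v hv => ?_
          have h4 := (hV1 v ((hWmem v).mp hv).2).2.pos
          have h5 : (0 : ℝ) < (Ideal.absNorm v.asIdeal : ℝ) ^ m :=
            pow_pos (by exact_mod_cast h4) _
          rw [div_le_one h5]
          have h6 := card_le_card (filter_subset (fun a => O g v a) (Fintype.piFinset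
            (fun _ : J => range (Ideal.absNorm v.asIdeal))))
          rw [Fintype.card_piFinset, prod_const, card_range, card_univ] at h6
          exact_mod_cast h6
      _ = W.card := by rw [sum_const, nsmul_eq_mul, mul_one]
  have hSl : (β - ε) * W.card ≤ S := by
    calc (β - ε) * W.card = ∑ _v ∈ W, (β - ε) := by rw [sum_const, nsmul_eq_mul, mul_comm]
      _ ≤ S := by
        refine sum_le_sum fun v hv => ?_
        obtain ⟨_, S', hS'1, hS'2⟩ := hV2 g v ((hWmem v).mp hv).2
        refine hS'2.trans (div_le_div_of_nonneg_right ?_ (by positivity))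
        have h4 : S' ⊆ (Fintype.piFinset
            (fun _ : J => range (Ideal.absNorm v.asIdeal))).filter fun a => O g v a := by
          intro a ha
          rw [Finset.mem_filter, Fintype.mem_piFinset]
          exact ⟨fun j => Finset.mem_range.mpr ((hS'1 a ha).1 j), (hS'1 a ha).2⟩
        exact_mod_cast card_le_card h4
  refine ⟨S / allP K Q, ?_, div_nonneg hS0 hall0.le, ?_, fun _ X => ?_⟩
  · rw [le_div_iff₀ hall0]
    by_cases hpos : κ * β - η ≤ 0
    · exact le_trans (mul_nonpos_of_nonpos_of_nonneg hpos hall0.le) hS0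
    · push Not at hpos
      have h4 : κ * β ≤ β := mul_le_of_le_one_left hβ0 hκ1
      have h5 : 0 ≤ β - ε := by rw [hε]; linarith
      calc (κ * β - η) * allP K Q ≤ (κ * β - η) * ((1 + ν) * Nat.primeCounting Q) :=
            mul_le_mul_of_nonneg_left hallu hpos.le
        _ = ((κ * β - η) * (1 + ν)) * Nat.primeCounting Q := by ring
        _ ≤ ((β - ε) * (κ - ν)) * Nat.primeCounting Q :=
            mul_le_mul_of_nonneg_right (aux2 hβ0 hβ1 hκ1 hη.le hν0.le hν1 hε) hπ.le
        _ = (β - ε) * ((κ - ν) * Nat.primeCounting Q) := by ring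
        _ ≤ (β - ε) * W.card := mul_le_mul_of_nonneg_left hWcard h5
        _ ≤ S := hSl
  · rw [div_le_one hall0]
    exact hS1.trans hWall
  · rw [div_mul_cancel₀ _ hall0.ne']
    set ES : Set (J → ℕ) := {t : J → ℕ | (∀ j, 1 ≤ t j ∧ t j ≤ X) ∧ η * allP K Q <
        |(Nat.card {v : HeightOneSpectrum (𝓞 K) //
          Ideal.absNorm v.asIdeal ≤ Q ∧ P v ∧ O g v t} : ℝ) - S|} with hES
    have hfin : ES.Finite := by
      refine (Finset.finite_toSet (Fintype.piFinset (fun _ : J => Icc 1 X))).subset ?_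
      rintro t ⟨h4, _⟩
      rw [Finset.mem_coe, Fintype.mem_piFinset]
      exact fun j => Finset.mem_Icc.mpr (h4 j)
    have hDcard : ∀ a, (W.filter fun v => Ideal.absNorm v.asIdeal = a).card ≤
        Module.finrank ℚ K := by
      intro a
      by_cases ha : a.Prime
      · have h1 := Pool.Agent.W352.ChAbs.over_le (K := K) a ha
        refine le_trans ?_ h1.2
        rw [← Set.ncard_coe_finset]
        refine Set.ncard_le_ncard ?_ h1.1
        intro v hv
        have h2 := (mem_filter.mp (mem_coe.mp hv)).2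
        rw [Set.mem_ofPred_eq, ← h2]
        exact Ideal.absNorm_mem _
      · have h2 : W.filter (fun v => Ideal.absNorm v.asIdeal = a) = ∅ := by
          rw [filter_eq_empty_iff]
          intro v hv h
          exact ha (h ▸ (hV1 v ((hWmem v).mp hv).2).2)
        rw [h2, card_empty]
        exact Nat.zero_le _
    have hex := conc X Q (Module.finrank ℚ K) W (fun v => Ideal.absNorm v.asIdeal) hDcard
      (fun v hv => (hV1 v ((hWmem v).mp hv).2).2) (fun v hv => ((hWmem v).mp hv).1) J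
      (fun v a => O g v a) (η / 2) (by positivity) hfin.toFinset (by
        intro t ht
        rw [Set.Finite.mem_toFinset] at ht
        obtain ⟨h4, h5⟩ := ht
        refine ⟨h4, ?_⟩
        change η / 2 * (W.card : ℝ) ≤ |((W.filter fun v => O g v fun j =>
          t j % Ideal.absNorm v.asIdeal).card : ℝ) - S|
        have h6 : (W.filter fun v => O g v fun j => t j % Ideal.absNorm v.asIdeal) =
            W.filter fun v => O g v t := by
          refine Finset.filter_congr fun v hv => ?_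
          exact ((hV2 g v ((hWmem v).mp hv).2).1 t).symm
        rw [h6]
        rw [hcard (fun v => P v ∧ O g v t)] at h5
        have h7 : (W.filter fun v => O g v t) ⊆
            hfinQ.toFinset.filter fun v => P v ∧ O g v t := by
          intro v hv
          rw [Finset.mem_filter] at hv ⊢
          obtain ⟨h8, h9⟩ := (hWmem v).mp hv.1
          refine ⟨?_, (hV1 v h9).1, hv.2⟩
          rw [Set.Finite.mem_toFinset]
          exact h8
        have h8 : (hfinQ.toFinset.filter fun v => P v ∧ O g v t) ⊆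
            (W.filter fun v => O g v t) ∪ (hfinQ.toFinset.filter fun v => P v ∧ ¬ V v) := by
          intro v hv
          rw [Finset.mem_filter] at hv
          by_cases h9 : V v
          · refine Finset.mem_union_left _ (Finset.mem_filter.mpr ⟨(hWmem v).mpr ⟨?_, h9⟩, hv.2.2⟩)
            exact (Set.Finite.mem_toFinset hfinQ).mp hv.1
          · exact Finset.mem_union_right _ (Finset.mem_filter.mpr ⟨hv.1, hv.2.1, h9⟩)
        have h9 : ((W.filter fun v => O g v t).card : ℝ) ≤
            ((hfinQ.toFinset.filter fun v => P v ∧ O g v t).card : ℝ) := by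
          exact_mod_cast card_le_card h7
        have h10 : ((hfinQ.toFinset.filter fun v => P v ∧ O g v t).card : ℝ) ≤
            ((W.filter fun v => O g v t).card : ℝ) +
              ((hfinQ.toFinset.filter fun v => P v ∧ ¬ V v).card : ℝ) := by
          exact_mod_cast (card_le_card h8).trans (card_union_le _ _)
        have h11 : ν * (Nat.primeCounting Q : ℝ) ≤ 2 * ν * allP K Q := by
          have h12 : (1 / 2 : ℝ) * Nat.primeCounting Q ≤ allP K Q :=
            le_trans (mul_le_mul_of_nonneg_right (by linarith) hπ.le) halll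
          nlinarith
        have h12 : 2 * ν * (allP K Q : ℝ) ≤ η / 2 * allP K Q :=
          mul_le_mul_of_nonneg_right (by linarith) hall0.le
        have h13 : η / 2 * (W.card : ℝ) ≤ η / 2 * allP K Q :=
          mul_le_mul_of_nonneg_left hWall (by positivity)
        have h14 : |((hfinQ.toFinset.filter fun v => P v ∧ O g v t).card : ℝ) - S| ≤
            |((W.filter fun v => O g v t).card : ℝ) - S| + η / 2 * allP K Q := by
          have h15 : ((hfinQ.toFinset.filter fun v => P v ∧ O g v t).card : ℝ) - S =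
              (((W.filter fun v => O g v t).card : ℝ) - S) +
              (((hfinQ.toFinset.filter fun v => P v ∧ O g v t).card : ℝ) -
                ((W.filter fun v => O g v t).card : ℝ)) := by ring
          rw [h15]
          refine (abs_add_le _ _).trans (add_le_add le_rfl ?_)
          rw [abs_of_nonneg (by linarith)]
          linarith
        linarith)
    rw [← Set.ncard_eq_toFinset_card _ hfin, ← hD, ← hm] at hex
    have h4 : (κ / 2) * Nat.primeCounting Q ≤ (W.card : ℝ) :=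
      (mul_le_mul_of_nonneg_right (by linarith) hπ.le).trans hWcard
    have h5 : (η / 2) ^ 2 * ((κ / 2) * Nat.primeCounting Q) * ES.ncard ≤
        6 * D * (4 ^ m - 1) * (((X : ℝ) + (Q : ℝ) ^ 2) * (X : ℝ) ^ (m - 1)) := by
      calc (η / 2) ^ 2 * ((κ / 2) * Nat.primeCounting Q) * ES.ncard ≤
            (η / 2) ^ 2 * W.card * ES.ncard :=
            mul_le_mul_of_nonneg_right (mul_le_mul_of_nonneg_left h4 (by positivity))
              (Nat.cast_nonneg _)
        _ ≤ 6 * D * ((X : ℝ) + (Q : ℝ) ^ 2) * ((4 ^ m - 1) * (X : ℝ) ^ (m - 1)) := hex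
        _ = _ := by ring
    rw [div_mul_eq_mul_div, le_div_iff₀ (by positivity)]
    nlinarith

end Pool.Agent.Q267.DC
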