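import Mathlib

/-!
# The footprint bound for a polynomial with one leading monomial
-/

set_option autoImplicit false

open Finset MvPolynomial

namespace Pool.Agent.Q267.DC

variable {K : Type*} [Field K] [Fintype K]

/-- A power sum over a finite field which is not zero. -/
lemma le_of_sum_pow_ne {i : ℕ} (h : ∑ x : K, x ^ i ≠ 0) : Fintype.card K - 1 ≤ i := by
  by_contra hcon
  push Not at hcon
  exact h (FiniteField.sum_pow_lt_card_sub_one K i hcon)

lemma sum_pow_card : ∑ x : K, x ^ (Fintype.card K - 1) = -1 := by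
  classical
  have h1 : 1 < Fintype.card K := Fintype.one_lt_card
  rw [← Finset.add_sum_erase univ _ (mem_univ (0 : K)), zero_pow (by omega), zero_add]
  have h2 : ∀ x ∈ univ.erase (0 : K), x ^ (Fintype.card K - 1) = 1 := by
    intro x hx
    exact FiniteField.pow_card_sub_one_eq_one x (Finset.mem_erase.mp hx).1
  rw [sum_congr rfl h2, sum_const, card_erase_of_mem (mem_univ _), card_univ, nsmul_eq_mul,
    mul_one, Nat.cast_sub h1.le, FiniteField.cast_card_eq_zero, Nat.cast_one, zero_sub]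

variable {I : Type*} [Fintype I] [DecidableEq I]

/-- **Footprint bound.** If one monomial with exponents below `q` has larger weight than all
other monomials of `P`, then `P` has at least `∏ (q - m_l)` points with `P ≠ 0`. -/
theorem foot (P : MvPolynomial I K) (W : I → ℕ) (hW : ∀ l, 0 < W l) (m0 : I →₀ ℕ)
    (hm : ∀ l, m0 l < Fintype.card K) (h0 : coeff m0 P ≠ 0)
    (hmax : ∀ m ∈ P.support, m ≠ m0 → Finsupp.weight W m < Finsupp.weight W m0)
    (S : Finset (I → K)) (hS : ∀ t, eval t P ≠ 0 → t ∈ S) :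
    ∏ l, (Fintype.card K - m0 l) ≤ S.card := by
  classical
  set q := Fintype.card K with hq
  by_contra hcon
  push Not at hcon
  let Φ : ((∀ l, Fin (q - m0 l)) → K) →ₗ[K] (S → K) :=
    { toFun := fun a t => ∑ s, a s * ∏ l, t.1 l ^ (s l : ℕ)
      map_add' := by
        intro a b
        funext t
        simp only [Pi.add_apply, add_mul, sum_add_distrib]
      map_smul' := by
        intro c a
        funext t
        simp only [Pi.smul_apply, smul_eq_mul, RingHom.id_apply, mul_sum, mul_assoc] }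
  have hker : LinearMap.ker Φ ≠ ⊥ := by
    refine LinearMap.ker_ne_bot_of_finrank_lt ?_
    rw [Module.finrank_fintype_fun_eq_card, Module.finrank_fintype_fun_eq_card, Fintype.card_coe,
      Fintype.card_pi]
    simpa using hcon
  obtain ⟨a, ha, ha0⟩ := Submodule.exists_mem_ne_zero_of_ne_bot hker
  rw [LinearMap.mem_ker] at ha
  -- the leading exponent of `a`
  obtain ⟨s₀, hs₀, hsmax⟩ := Finset.exists_max_image
    (univ.filter fun s : (∀ l, Fin (q - m0 l)) => a s ≠ 0) (fun s => ∑ l, (s l : ℕ) * W l) (by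
      obtain ⟨s, hs⟩ := Function.ne_iff.mp ha0
      exact ⟨s, mem_filter.mpr ⟨mem_univ _, hs⟩⟩)
  have hs₀' : a s₀ ≠ 0 := (mem_filter.mp hs₀).2
  have hle : ∀ l, m0 l + (s₀ l : ℕ) ≤ q - 1 := by
    intro l
    have h1 := (s₀ l).2
    omega
  have hq1 : 1 ≤ q := by
    rw [hq]
    exact Fintype.card_pos
  -- the sum is zero
  have hz : ∑ t : I → K, eval t P * (∑ s, a s * ∏ l, t l ^ (s l : ℕ)) *
      ∏ l, t l ^ (q - 1 - (m0 l + (s₀ l : ℕ))) = 0 := by
    refine sum_eq_zero fun t _ => ?_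
    by_cases h : eval t P = 0
    · rw [h, zero_mul, zero_mul]
    · have h2 := congrFun ha ⟨t, hS t h⟩
      have h3 : ∑ s, a s * ∏ l, t l ^ (s l : ℕ) = 0 := h2
      rw [h3, mul_zero, zero_mul]
  -- expansion
  have hexp : ∑ t : I → K, eval t P * (∑ s, a s * ∏ l, t l ^ (s l : ℕ)) *
      ∏ l, t l ^ (q - 1 - (m0 l + (s₀ l : ℕ))) =
      ∑ m ∈ P.support, ∑ s, coeff m P * a s *
        ∏ l, ∑ x : K, x ^ (m l + (s l : ℕ) + (q - 1 - (m0 l + (s₀ l : ℕ)))) := by
    have h1 : ∀ t : I → K, eval t P * (∑ s, a s * ∏ l, t l ^ (s l : ℕ)) *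
        ∏ l, t l ^ (q - 1 - (m0 l + (s₀ l : ℕ))) =
        ∑ m ∈ P.support, ∑ s, coeff m P * a s *
          ∏ l, t l ^ (m l + (s l : ℕ) + (q - 1 - (m0 l + (s₀ l : ℕ)))) := by
      intro t
      rw [eval_eq', sum_mul, sum_mul]
      refine sum_congr rfl fun m _ => ?_
      rw [mul_sum, sum_mul]
      refine sum_congr rfl fun s _ => ?_
      have h2 : ∏ l, t l ^ (m l + (s l : ℕ) + (q - 1 - (m0 l + (s₀ l : ℕ)))) =
          (∏ l, t l ^ (m l)) * (∏ l, t l ^ (s l : ℕ)) *
            ∏ l, t l ^ (q - 1 - (m0 l + (s₀ l : ℕ))) := by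
        rw [← prod_mul_distrib, ← prod_mul_distrib]
        exact prod_congr rfl fun l _ => by rw [pow_add, pow_add]
      rw [h2]
      ring
    rw [sum_congr rfl fun t _ => h1 t, sum_comm]
    refine sum_congr rfl fun m _ => ?_
    rw [sum_comm]
    refine sum_congr rfl fun s _ => ?_
    rw [← mul_sum, Finset.prod_univ_sum, Fintype.piFinset_univ]
  -- only one term is left
  rw [hexp] at hz
  have honly : ∀ m ∈ P.support, ∀ s : (∀ l, Fin (q - m0 l)),
      coeff m P * a s * ∏ l, ∑ x : K, x ^ (m l + (s l : ℕ) + (q - 1 - (m0 l + (s₀ l : ℕ)))) ≠ 0 →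
      m = m0 ∧ s = s₀ := by
    intro m hm1 s hne
    have h1 : a s ≠ 0 := right_ne_zero_of_mul (left_ne_zero_of_mul hne)
    have h2 : ∀ l, m0 l + (s₀ l : ℕ) ≤ m l + (s l : ℕ) := by
      intro l
      have h3 := Finset.prod_ne_zero_iff.mp (right_ne_zero_of_mul hne) l (mem_univ l)
      have h4 := le_of_sum_pow_ne h3
      have h5 := hle l
      omega
    have h3 := hsmax s (mem_filter.mpr ⟨mem_univ _, h1⟩)
    have h4 : Finsupp.weight W m0 + ∑ l, (s₀ l : ℕ) * W l ≤
        Finsupp.weight W m + ∑ l, (s l : ℕ) * W l := by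
      rw [Finsupp.weight_apply, Finsupp.weight_apply, Finsupp.sum_fintype _ _ (by simp),
        Finsupp.sum_fintype _ _ (by simp), ← sum_add_distrib, ← sum_add_distrib]
      refine sum_le_sum fun l _ => ?_
      rw [smul_eq_mul, smul_eq_mul, ← add_mul, ← add_mul]
      exact Nat.mul_le_mul_right _ (h2 l)
    have h5 : m = m0 := by
      by_contra h6
      have h7 := hmax m hm1 h6
      omega
    subst h5
    refine ⟨rfl, ?_⟩
    have h6 : ∀ l, (s₀ l : ℕ) ≤ (s l : ℕ) := fun l => by have := h2 l; omega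
    have h7 : ∀ l ∈ (univ : Finset I), (s₀ l : ℕ) * W l = (s l : ℕ) * W l := by
      refine (Finset.sum_eq_sum_iff_of_le fun l _ => Nat.mul_le_mul_right _ (h6 l)).mp ?_
      exact le_antisymm (sum_le_sum fun l _ => Nat.mul_le_mul_right _ (h6 l)) h3
    funext l
    exact Fin.ext (Nat.eq_of_mul_eq_mul_right (hW l) (h7 l (mem_univ l))).symm
  rw [sum_eq_single m0, sum_eq_single s₀] at hz
  · have h1 : ∀ l, m0 l + (s₀ l : ℕ) + (q - 1 - (m0 l + (s₀ l : ℕ))) = q - 1 := fun l => by
      have := hle l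
      omega
    refine absurd hz (mul_ne_zero (mul_ne_zero h0 hs₀') ?_)
    refine Finset.prod_ne_zero_iff.mpr fun l _ => ?_
    rw [h1 l, hq, sum_pow_card]
    exact neg_ne_zero.mpr one_ne_zero
  · intro s _ hs
    by_contra h
    exact hs (honly m0 (mem_support_iff.mpr h0) s h).2
  · intro h
    exact absurd (mem_univ _) h
  · intro m hm1 hne
    refine sum_eq_zero fun s _ => ?_
    by_contra h
    exact hne (honly m hm1 s h).1
  · intro h
    exact absurd (mem_support_iff.mpr h0) h

end Pool.Agent.Q267.DC
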