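import Pool.Agent.Q267.DC.Foot
import Pool.Agent.Q267.DC.LeadW

/-!
# Counting the parameters with an invertible Hasse-Witt matrix
-/

set_option autoImplicit false

open Finset MvPolynomial

namespace Pool.Agent.Q267.DC

section phi

variable {I : Type*} {k : Type*} [CommRing k]

/-- The substitution `T_i ↦ T_i τ ^ (c_i)`. -/
noncomputable def phi (c : I → ℕ) : MvPolynomial I k →+* Polynomial (MvPolynomial I k) :=
  eval₂Hom (Polynomial.C.comp C) fun i => Polynomial.C (X i) * Polynomial.X ^ c i

lemma phi_C (c : I → ℕ) (a : k) : phi c (C a : MvPolynomial I k) = Polynomial.C (C a) := by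
  simp [phi]

lemma phi_comp_C (c : I → ℕ) : (phi c).comp (C : k →+* MvPolynomial I k) =
    (Polynomial.C : MvPolynomial I k →+* Polynomial (MvPolynomial I k)).comp C := by
  unfold phi
  exact eval₂Hom_comp_C _ _

lemma phi_X (c : I → ℕ) (i : I) :
    phi c (X i : MvPolynomial I k) = Polynomial.C (X i) * Polynomial.X ^ c i := by
  simp [phi]

variable [Fintype I]

lemma phi_monomial (c : I → ℕ) (m : I →₀ ℕ) (a : k) :
    phi c (monomial m a) = Polynomial.C (monomial m a) * Polynomial.X ^ Finsupp.weight c m := by
  rw [monomial_eq, map_mul, phi_C, map_finsuppProd, Finsupp.prod_fintype _ _ (by simp),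
    Finsupp.prod_fintype _ _ (by simp), Finsupp.weight_apply, Finsupp.sum_fintype _ _ (by simp)]
  simp only [map_pow, phi_X, mul_pow, prod_mul_distrib]
  rw [map_mul, map_prod]
  simp only [map_pow, ← pow_mul]
  rw [mul_assoc, Finset.prod_pow_eq_pow_sum]
  congr 3
  exact sum_congr rfl fun i _ => by rw [smul_eq_mul, mul_comm]

lemma phi_coeff [DecidableEq I] (c : I → ℕ) (P : MvPolynomial I k) (j : ℕ) (m : I →₀ ℕ) :
    coeff m ((phi c P).coeff j) = if Finsupp.weight c m = j then coeff m P else 0 := by
  conv_lhs => rw [P.as_sum]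
  rw [map_sum, Polynomial.finsetSum_coeff, coeff_sum]
  have h1 : ∀ x ∈ P.support, coeff m ((phi c (monomial x (coeff x P))).coeff j) =
      if x = m then (if Finsupp.weight c m = j then coeff m P else 0) else 0 := by
    intro x _
    rw [phi_monomial, Polynomial.coeff_C_mul_X_pow]
    by_cases hx : x = m
    · subst hx
      rw [if_pos rfl]
      by_cases hj : j = Finsupp.weight c x
      · rw [if_pos hj, if_pos hj.symm, coeff_monomial, if_pos rfl]
      · rw [if_neg hj, if_neg (Ne.symm hj), coeff_zero]
    · rw [if_neg hx]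
      by_cases hj : j = Finsupp.weight c x
      · rw [if_pos hj, coeff_monomial, if_neg hx]
      · rw [if_neg hj, coeff_zero]
  rw [sum_congr rfl h1, sum_ite_eq']
  by_cases hm : m ∈ P.support
  · rw [if_pos hm]
  · rw [if_neg hm, notMem_support_iff.mp hm, ite_self]

end phi

section count

variable {n : Type*} [Fintype n] [DecidableEq n] {I : Type*} [Fintype I] [DecidableEq I]
variable {k : Type*} [Field k]

/-- The family `F₀ + ∑ t_i x ^ (κ w_i)`. -/
noncomputable def fam {R : Type*} [CommRing R] (κ : ℕ) (w : I → n →₀ ℕ) (F : MvPolynomial n R)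
    (t : I → R) : MvPolynomial n R := F + ∑ i, monomial (κ • w i) (t i)

omit [Fintype n] [DecidableEq n] [DecidableEq I] in
lemma fam_map {R S : Type*} [CommRing R] [CommRing S] (φ : R →+* S) (κ : ℕ) (w : I → n →₀ ℕ)
    (F : MvPolynomial n R) (t : I → R) :
    map φ (fam κ w F t) = fam κ w (map φ F) fun i => φ (t i) := by
  unfold fam
  rw [map_add, map_sum]
  exact congrArg _ (sum_congr rfl fun i _ => map_monomial _ _ _)

/-- The determinant as a polynomial in the parameters. -/
noncomputable def detP (e κ p : ℕ) (w : I → n →₀ ℕ) (F : MvPolynomial n k) : MvPolynomial I k :=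
  (hm e p w (fam κ w (map C F) fun i => X i)).det

omit [Fintype n] in
lemma detP_eval (e κ p : ℕ) (w : I → n →₀ ℕ) (F : MvPolynomial n k) (t : I → k) :
    eval t (detP e κ p w F) = (hm e p w (fam κ w F t)).det := by
  unfold detP
  rw [← det_hm_map, fam_map, MvPolynomial.map_map]
  congr 3
  · have : (eval t).comp (C : k →+* MvPolynomial I k) = RingHom.id k := by
      ext a
      simp
    rw [this, map_id]
  · funext i
    simp


lemma detP_supp {e κ p : ℕ} (he : 1 ≤ e) (hκ0 : 1 ≤ κ) (hκ : e * κ + 1 = p) (w : I → n →₀ ℕ)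
    (hw : Function.Injective w) (F : MvPolynomial n k) :
    ∃ W : I → ℕ, (∀ i, 0 < W i) ∧
      coeff (Finsupp.equivFunOnFinite.symm fun _ => e) (detP e κ p w F) = 1 ∧
      ∀ m ∈ (detP e κ p w F).support, m ≠ (Finsupp.equivFunOnFinite.symm fun _ => e) →
        Finsupp.weight W m <
          Finsupp.weight W (Finsupp.equivFunOnFinite.symm fun _ => e : I →₀ ℕ) := by
  classical
  set N : ℕ := 1 + ∑ v ∈ F.support, nsq v + ∑ i, κ ^ 2 * nsq (w i) with hN
  have hN1 : ∀ v ∈ F.support, nsq v < N := by
    intro v hv
    have := single_le_sum (f := fun v => nsq v) (fun _ _ => Nat.zero_le _) hv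
    omega
  have hN2 : ∀ i, κ ^ 2 * nsq (w i) < N := by
    intro i
    have := single_le_sum (f := fun i => κ ^ 2 * nsq (w i)) (fun _ _ => Nat.zero_le _) (mem_univ i)
    omega
  set W : I → ℕ := fun i => N - κ ^ 2 * nsq (w i) with hW
  have hWN : ∀ i, W i + κ ^ 2 * nsq (w i) = N := fun i => Nat.sub_add_cancel (hN2 i).le
  set m0 : I →₀ ℕ := Finsupp.equivFunOnFinite.symm fun _ => e with hm0
  -- the family with the parameter `τ`
  set Fτ : MvPolynomial n (Polynomial (MvPolynomial I k)) :=
    fam κ w (map ((Polynomial.C : MvPolynomial I k →+* _).comp C) F) fun i =>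
      Polynomial.C (X i) * Polynomial.X ^ W i with hFτ
  have hphi : phi W (detP e κ p w F) = (hm e p w Fτ).det := by
    unfold detP
    rw [← det_hm_map, fam_map, MvPolynomial.map_map, hFτ]
    rw [phi_comp_C]
    simp only [phi_X]
  have hco : ∀ v j, (coeff v Fτ).coeff j = (if j = 0 then C (coeff v F) else 0) +
      ∑ i, if κ • w i = v then (if j = W i then (X i : MvPolynomial I k) else 0) else 0 := by
    intro v j
    rw [hFτ]
    unfold fam
    rw [coeff_add, coeff_map, coeff_sum, Polynomial.coeff_add, Polynomial.finsetSum_coeff]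
    congr 1
    · rw [RingHom.comp_apply, Polynomial.coeff_C]
    · refine sum_congr rfl fun i _ => ?_
      rw [coeff_monomial]
      by_cases h : κ • w i = v
      · rw [if_pos h, if_pos h, Polynomial.coeff_C_mul_X_pow]
      · rw [if_neg h, if_neg h, Polynomial.coeff_zero]
  have hQ : Q N 1 Fτ := by
    intro v j h
    rw [hco] at h
    rw [one_mul, one_pow, one_mul]
    by_cases h1 : (if j = 0 then (C (coeff v F) : MvPolynomial I k) else 0) = 0
    · rw [h1, zero_add] at h
      obtain ⟨i, _, h2⟩ := exists_ne_zero_of_sum_ne_zero h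
      have h3 : κ • w i = v := by
        by_contra h3
        exact h2 (if_neg h3)
      rw [if_pos h3] at h2
      have h4 : j = W i := by
        by_contra h4
        exact h2 (if_neg h4)
      rw [h4, ← h3, nsq_smul]
      exact (hWN i).le
    · have h2 : j = 0 := by
        by_contra h2
        exact h1 (if_neg h2)
      rw [if_pos h2] at h1
      have h3 : v ∈ F.support := by
        rw [mem_support_iff]
        intro h3
        rw [h3, map_zero] at h1
        exact h1 rfl
      have := hN1 v h3
      omega
  have hT : ∀ i, (coeff (κ • w i) Fτ).coeff (W i) = X i := by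
    intro i
    rw [hco, if_neg (by have := hN2 i; have := hWN i; omega), zero_add, sum_eq_single i]
    · rw [if_pos rfl, if_pos rfl]
    · intro j _ hj
      rw [if_neg]
      intro h
      apply hj
      apply hw
      ext l
      have := DFunLike.congr_fun h l
      rw [Finsupp.smul_apply, Finsupp.smul_apply, smul_eq_mul, smul_eq_mul] at this
      exact Nat.eq_of_mul_eq_mul_left (by omega) this
    · intro h
      exact absurd (mem_univ _) h
  obtain ⟨h1, h2⟩ := det_lead he hκ w hw hQ W hWN (fun i => X i) hT
  rw [← hphi] at h1 h2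
  have hwm0 : Finsupp.weight W m0 = ∑ i, e * W i := by
    rw [Finsupp.weight_apply, Finsupp.sum_fintype _ _ (by simp)]
    rfl
  have hprod : (∏ i, (X i : MvPolynomial I k) ^ e) = monomial m0 1 := by
    rw [monomial_eq, map_one, one_mul, Finsupp.prod_fintype _ _ (by simp)]
    rfl
  rw [hprod] at h2
  have h3 : ∀ m, coeff m ((phi W (detP e κ p w F)).coeff (∑ i, e * W i)) =
      if m0 = m then 1 else 0 := by
    intro m
    rw [h2, coeff_monomial]
  refine ⟨W, fun i => by have := hN2 i; have := hWN i; omega, ?_, ?_⟩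
  · have h4 := h3 m0
    rw [phi_coeff, if_pos hwm0, if_pos rfl] at h4
    exact h4
  · intro m hm hne
    rw [hwm0]
    have h4 : Finsupp.weight W m ≤ ∑ i, e * W i := by
      by_contra hcon
      push Not at hcon
      have h5 : (phi W (detP e κ p w F)).coeff (Finsupp.weight W m) = 0 :=
        Polynomial.coeff_eq_zero_of_natDegree_lt (lt_of_le_of_lt h1 hcon)
      have h6 := phi_coeff W (detP e κ p w F) (Finsupp.weight W m) m
      rw [if_pos rfl, h5, coeff_zero] at h6
      exact mem_support_iff.mp hm h6.symm
    refine lt_of_le_of_ne h4 fun h5 => ?_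
    have h6 := h3 m
    rw [phi_coeff, if_pos h5, if_neg (Ne.symm hne)] at h6
    exact mem_support_iff.mp hm h6

/-- **Many parameters have an invertible Hasse-Witt matrix.** -/
theorem good_count [Fintype k] {e κ p : ℕ} (hcard : Fintype.card k = p) (he : 1 ≤ e)
    (hκ0 : 1 ≤ κ) (hκ : e * κ + 1 = p) (w : I → n →₀ ℕ) (hw : Function.Injective w)
    (F : MvPolynomial n k) (S : Finset (I → k))
    (hS : ∀ t, (hm e p w (fam κ w F t)).det ≠ 0 → t ∈ S) :
    (p - e) ^ Fintype.card I ≤ S.card := by
  obtain ⟨W, hW, h1, h2⟩ := detP_supp he hκ0 hκ w hw F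
  have hep : e < p := by
    have := Nat.le_mul_of_pos_right e hκ0
    omega
  have h3 := foot (detP e κ p w F) W hW (Finsupp.equivFunOnFinite.symm fun _ => e)
    (fun l => by rw [hcard]; exact hep) (by rw [h1]; exact one_ne_zero) h2 S (by
      intro t ht
      rw [detP_eval] at ht
      exact hS t ht)
  rw [hcard] at h3
  refine le_trans (le_of_eq ?_) h3
  rw [← Finset.card_univ, ← Finset.prod_const]
  rfl

end count

end Pool.Agent.Q267.DC
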