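import Pool.Agent.Q267.OD.Res
import Pool.Agent.Q267.DC.Poly

/-!
# Good parameters over a field with `p` elements
-/

set_option autoImplicit false

open Finset MvPolynomial

namespace Pool.Agent.Q267.DC

open Pool.Agent.Q267.OD (dform Smooth crit_card weight_lt)

/-- The exponents `w` with `w i ≥ 1` and `∑ w i / d i < 1 / 2`. -/
abbrev Exps {n : ℕ} (d : Fin n → ℕ) :=
  {w : (i : Fin n) → Fin (d i) // (∀ i, 0 < (w i : ℕ)) ∧ ∑ i, ((w i : ℕ) : ℚ) / d i < 1 / 2}

/-- The Hasse-Witt matrix of `y ^ 2 = f`: the coefficients of `x ^ (q w - w')` in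
`f ^ ((q - 1) / 2)`. -/
noncomputable def hasseWitt {R : Type*} [CommRing R] {n : ℕ} (d : Fin n → ℕ) (q : ℕ)
    (f : MvPolynomial (Fin n) R) : Matrix (Exps d) (Exps d) R :=
  Matrix.of fun w w' => coeff (Finsupp.equivFunOnFinite.symm fun i => q * (w.1 i : ℕ))
    (monomial (Finsupp.equivFunOnFinite.symm fun i => (w'.1 i : ℕ)) 1 * f ^ ((q - 1) / 2))

/-- The member `∑ b_i x_i ^ (d_i) + G + c + ∑ t_w x ^ (2 w)` of the family. -/
noncomputable def member {R : Type*} [CommRing R] {n : ℕ} (d : Fin n → ℕ) (b : Fin n → R)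
    (G : MvPolynomial (Fin n) R) (t : Option (Exps d) → R) : MvPolynomial (Fin n) R :=
  dform d b + G + C (t none) +
    ∑ w : Exps d, monomial (Finsupp.equivFunOnFinite.symm fun i => 2 * (w.1 i : ℕ)) (t (some w))

variable {n : ℕ}

/-- The exponents as finitely supported functions. -/
noncomputable def wexp (d : Fin n → ℕ) (w : Exps d) : Fin n →₀ ℕ :=
  Finsupp.equivFunOnFinite.symm fun i => (w.1 i : ℕ)

lemma wexp_apply (d : Fin n → ℕ) (w : Exps d) (i : Fin n) : wexp d w i = (w.1 i : ℕ) := rfl

lemma wexp_inj (d : Fin n → ℕ) : Function.Injective (wexp d) := by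
  intro w w' h
  apply Subtype.ext
  funext i
  exact Fin.ext (DFunLike.congr_fun h i)

lemma hasseWitt_eq {R : Type*} [CommRing R] (d : Fin n → ℕ) (q : ℕ)
    (F : MvPolynomial (Fin n) R) : hasseWitt d q F = hm ((q - 1) / 2) q (wexp d) F := by
  ext w w'
  unfold hasseWitt hm
  rw [Matrix.of_apply, Matrix.of_apply]
  congr 1
  ext i
  rw [Finsupp.smul_apply, smul_eq_mul]
  rfl

lemma member_eq {R : Type*} [CommRing R] (d : Fin n → ℕ) (b : Fin n → R)
    (G : MvPolynomial (Fin n) R) (t : Option (Exps d) → R) :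
    member d b G t = fam 2 (wexp d) (dform d b + G + C (t none)) fun w => t (some w) := by
  unfold member fam
  congr 1
  refine sum_congr rfl fun w _ => ?_
  have h : (Finsupp.equivFunOnFinite.symm fun i => 2 * (w.1 i : ℕ) : Fin n →₀ ℕ) =
      2 • wexp d w := by
    ext i
    rw [Finsupp.smul_apply, smul_eq_mul]
    rfl
  rw [h]

/-- The number of singular members. -/
theorem sing_count {k : Type*} [Field k] (p : ℕ) [CharP k p] (d : Fin n → ℕ)
    (hd0 : ∀ i, d i ≠ 0) (b : Fin n → k) (hb : ∀ i, b i * (d i : k) ≠ 0)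
    (G : MvPolynomial (Fin n) k) (hG : ∀ u ∈ G.support, ∑ i, (u i : ℚ) / d i < 1) (B : Finset ℕ)
    (hB : ∀ r ∈ B, r < p ∧ ¬ Smooth (dform d b + G + C (r : k))) :
    B.card ≤ ∏ i, (d i - 1) := by
  classical
  have hcast : ∀ r ∈ B, ∀ r' ∈ B, (r : k) = (r' : k) → r = r' := by
    intro r hr r' hr' h
    exact CharP.natCast_injOn_Iio k p (Set.mem_Iio.mpr (hB r hr).1)
      (Set.mem_Iio.mpr (hB r' hr').1) h
  obtain ⟨M, hM⟩ : ∃ M : ℕ, M = univ.lcm d := ⟨_, rfl⟩
  have hM0 : M ≠ 0 := by
    rw [hM, Ne, Finset.lcm_eq_zero_iff]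
    rintro ⟨i, _, hi⟩
    exact hd0 i hi
  have hdM : ∀ i, d i ∣ M := fun i => by
    rw [hM]
    exact Finset.dvd_lcm (mem_univ i)
  have hGw : ∀ u ∈ G.support, Finsupp.weight (fun l => M / d l) u < M := by
    intro u hu
    exact weight_lt (p := M + 1) (by omega) d (by rw [Nat.add_sub_cancel]; exact hdM) u (hG u hu)
  have hsing : ∀ r ∈ B, ∃ ξ : Fin n → AlgebraicClosure k,
      aeval ξ (dform d b + G + C (r : k)) = 0 ∧
      ∀ i, aeval ξ (pderiv i (dform d b + G + C (r : k))) = 0 := by
    intro r hr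
    have h5 := (hB r hr).2
    unfold Smooth at h5
    push Not at h5
    exact h5
  choose! ξ hξ0 hξ1 using hsing
  have hmapL : map (algebraMap k (AlgebraicClosure k)) (dform d b + G) =
      dform d (fun i => algebraMap k (AlgebraicClosure k) (b i)) +
        map (algebraMap k (AlgebraicClosure k)) G := by
    rw [map_add]
    congr 1
    unfold dform
    rw [map_sum]
    exact sum_congr rfl fun i _ => map_monomial _ _ _
  have hinj : Set.InjOn ξ B := by
    intro r hr r' hr' h
    have h4 := hξ0 r hr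
    have h5 := hξ0 r' hr'
    rw [map_add] at h4 h5
    rw [← h] at h5
    have h6 : aeval (ξ r) (C (r : k)) = aeval (ξ r) (C (r' : k)) := by
      have := h4.trans h5.symm
      exact add_left_cancel this
    rw [← algebraMap_eq, AlgHom.commutes, AlgHom.commutes] at h6
    exact hcast r hr r' hr' ((algebraMap k (AlgebraicClosure k)).injective h6)
  rw [← card_image_of_injOn hinj]
  refine crit_card M (fun l => M / d l) d (fun i => Nat.div_mul_cancel (hdM i))
    (fun i => algebraMap k (AlgebraicClosure k) (b i)) ?_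
    (map (algebraMap k (AlgebraicClosure k)) G) ?_ _ ?_
  · intro i h
    apply hb i
    apply (algebraMap k (AlgebraicClosure k)).injective
    rw [map_mul, map_natCast, h, map_zero]
  · intro u hu
    exact hGw u (support_map_subset _ _ hu)
  · intro x hx i
    obtain ⟨r, hr, rfl⟩ := mem_image.mp hx
    have h4 := hξ1 r hr i
    rw [map_add, pderiv_C, add_zero] at h4
    rw [← hmapL, pderiv_map, eval_map, ← aeval_def]
    exact h4

/-- **The proportion of good parameters.** -/
theorem res_count {k : Type*} [Field k] [Fintype k] (p : ℕ) [Fact p.Prime] [CharP k p]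
    (hcard : Fintype.card k = p) (hp2 : p ≠ 2) (d : Fin n → ℕ) (hd0 : ∀ i, d i ≠ 0)
    (b : Fin n → k) (hb : ∀ i, b i * (d i : k) ≠ 0)
    (G : MvPolynomial (Fin n) k) (hG : ∀ u ∈ G.support, ∑ i, (u i : ℚ) / d i < 1)
    (S : Finset (Option (Exps d) → ℕ))
    (hS : ∀ a : Option (Exps d) → ℕ, (∀ j, a j < p) →
      Smooth (member d b G fun j => (a j : k)) →
      (hasseWitt d p (member d b G fun j => (a j : k))).det ≠ 0 → a ∈ S) :
    (1 / 2 : ℝ) ^ Fintype.card (Exps d) - ((∏ i, (d i - 1) : ℕ) : ℝ) / p ≤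
      (S.card : ℝ) / (p : ℝ) ^ Fintype.card (Option (Exps d)) := by
  classical
  have hp := (Fact.out : p.Prime)
  obtain ⟨e, he⟩ : ∃ e, e = (p - 1) / 2 := ⟨_, rfl⟩
  have hodd : e * 2 + 1 = p := by
    have h1 := hp.eq_two_or_odd
    have h2 := hp.two_le
    omega
  have he1 : 1 ≤ e := by
    have := hp.two_le
    omega
  set r := Fintype.card (Exps d) with hr
  set box : Finset (Option (Exps d) → ℕ) := Fintype.piFinset fun _ => range p with hbox
  set A := box.filter fun a => (hasseWitt d p (member d b G fun j => (a j : k))).det ≠ 0 with hA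
  set Bs := box.filter fun a => ¬ Smooth (member d b G fun j => (a j : k)) with hBs
  have hsurj : ∀ x : k, ∃ a, a < p ∧ (a : k) = x := by
    have h1 : Function.Injective (fun a : Fin p => ((a : ℕ) : k)) := by
      intro a a' h
      exact Fin.ext (CharP.natCast_injOn_Iio k p (Set.mem_Iio.mpr a.2) (Set.mem_Iio.mpr a'.2) h)
    have h2 := (Fintype.bijective_iff_injective_and_card _).mpr ⟨h1, by
      rw [Fintype.card_fin, hcard]⟩
    intro x
    obtain ⟨a, ha⟩ := h2.2 x
    exact ⟨a, a.2, ha⟩
  -- invertible matrices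
  have hAcard : p * (p - e) ^ r ≤ A.card := by
    have h1 : ∀ a ∈ A, a none ∈ range p := by
      intro a ha
      exact Fintype.mem_piFinset.mp (mem_filter.mp ha).1 none
    rw [card_eq_sum_card_fiberwise h1]
    have h2 : ∀ c ∈ range p, (p - e) ^ r ≤ (A.filter fun a => a none = c).card := by
      intro c hc
      set T : Finset (Exps d → k) := (A.filter fun a => a none = c).image
        (fun a w => ((a (some w) : ℕ) : k)) with hT
      refine le_trans ?_ (card_image_le (s := A.filter fun a => a none = c)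
        (f := fun a w => ((a (some w) : ℕ) : k)))
      refine good_count hcard he1 (by norm_num : 1 ≤ 2) hodd (wexp d) (wexp_inj d)
        (dform d b + G + C (c : k)) _ ?_
      intro t ht
      choose τ hτ1 hτ2 using hsurj
      rw [mem_image]
      refine ⟨fun j => j.elim c fun w => τ (t w), ?_, ?_⟩
      · rw [mem_filter, hA, mem_filter, hbox, Fintype.mem_piFinset]
        refine ⟨⟨?_, ?_⟩, rfl⟩
        · intro j
          rcases j with _ | w
          · exact hc
          · exact mem_range.mpr (hτ1 _)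
        · rw [hasseWitt_eq, member_eq, ← he]
          simp only [Option.elim_none, Option.elim_some, hτ2]
          exact ht
      · funext w
        simp only [Option.elim_some, hτ2]
    calc p * (p - e) ^ r = ∑ _c ∈ range p, (p - e) ^ r := by
          rw [sum_const, card_range, smul_eq_mul]
      _ ≤ _ := sum_le_sum h2
  -- singular members
  have hBcard : Bs.card ≤ p ^ r * ∏ i, (d i - 1) := by
    have h1 : ∀ a ∈ Bs, (fun w => a (some w)) ∈ Fintype.piFinset (fun _ : Exps d => range p) := by
      intro a ha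
      rw [Fintype.mem_piFinset]
      intro w
      exact Fintype.mem_piFinset.mp (mem_filter.mp ha).1 (some w)
    rw [card_eq_sum_card_fiberwise h1]
    have h2 : ∀ t ∈ Fintype.piFinset (fun _ : Exps d => range p),
        (Bs.filter fun a => (fun w => a (some w)) = t).card ≤ ∏ i, (d i - 1) := by
      intro t _
      have h3 : Set.InjOn (fun a : Option (Exps d) → ℕ => a none)
          (Bs.filter fun a => (fun w => a (some w)) = t) := by
        intro a ha a' ha' h
        have h4 := (mem_filter.mp (mem_coe.mp ha)).2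
        have h5 := (mem_filter.mp (mem_coe.mp ha')).2
        funext j
        rcases j with _ | w
        · exact h
        · exact congrFun (h4.trans h5.symm) w
      rw [← card_image_of_injOn h3]
      refine sing_count p d hd0 b hb (G + ∑ w : Exps d, monomial
        (Finsupp.equivFunOnFinite.symm fun i => 2 * (w.1 i : ℕ)) ((t w : ℕ) : k)) ?_ _ ?_
      · intro u hu
        rcases mem_union.mp (support_add hu) with h4 | h4
        · exact hG u h4
        · obtain ⟨w, _, h5⟩ := mem_biUnion.mp (support_sum h4)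
          have h6 := mem_singleton.mp (support_monomial_subset h5)
          rw [h6]
          have h7 := w.2.2
          have h8 : ∑ i, (((Finsupp.equivFunOnFinite.symm fun i => 2 * (w.1 i : ℕ) :
              Fin n →₀ ℕ) i : ℕ) : ℚ) / d i = 2 * ∑ i, ((w.1 i : ℕ) : ℚ) / d i := by
            rw [mul_sum]
            refine sum_congr rfl fun i _ => ?_
            rw [Finsupp.equivFunOnFinite_symm_apply_apply]
            push_cast
            ring
          rw [h8]
          linarith
      · intro c hc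
        obtain ⟨a, ha, rfl⟩ := mem_image.mp hc
        have h4 := (mem_filter.mp ha).2
        have h5 := (mem_filter.mp (mem_filter.mp ha).1)
        refine ⟨mem_range.mp (Fintype.mem_piFinset.mp h5.1 none), ?_⟩
        have h6 : member d b G (fun j => (a j : k)) = dform d b + (G + ∑ w : Exps d, monomial
            (Finsupp.equivFunOnFinite.symm fun i => 2 * (w.1 i : ℕ)) ((t w : ℕ) : k)) +
            C ((a none : ℕ) : k) := by
          unfold member
          rw [← h4]
          ring
        rw [← h6]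
        exact h5.2
    calc _ ≤ ∑ _t ∈ Fintype.piFinset (fun _ : Exps d => range p), ∏ i, (d i - 1) :=
          sum_le_sum h2
      _ = p ^ r * ∏ i, (d i - 1) := by
          rw [sum_const, smul_eq_mul, Fintype.card_piFinset, prod_const, card_range, card_univ]
  have hsub : A \ Bs ⊆ S := by
    intro a ha
    rw [mem_sdiff, hA, mem_filter, hBs, mem_filter] at ha
    have h1 : Smooth (member d b G fun j => (a j : k)) := by
      by_contra h
      exact ha.2 ⟨ha.1.1, h⟩
    exact hS a (fun j => mem_range.mp (Fintype.mem_piFinset.mp ha.1.1 j)) h1 ha.1.2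
  have hSc : A.card ≤ S.card + Bs.card := by
    have h1 := card_le_card hsub
    have h2 := le_card_sdiff Bs A
    omega
  have hpR : (0 : ℝ) < p := by exact_mod_cast hp.pos
  have hcardO : Fintype.card (Option (Exps d)) = r + 1 := Fintype.card_option
  rw [hcardO, le_div_iff₀ (by positivity)]
  have h1 : ((p * (p - e) ^ r : ℕ) : ℝ) ≤ S.card + (p ^ r * ∏ i, (d i - 1) : ℕ) := by
    exact_mod_cast hAcard.trans (hSc.trans (Nat.add_le_add_left hBcard _))
  have h2 : (p : ℝ) / 2 ≤ ((p - e : ℕ) : ℝ) := by
    have h3 : p ≤ 2 * (p - e) := by omega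
    have h4 : (p : ℝ) ≤ 2 * ((p - e : ℕ) : ℝ) := by exact_mod_cast h3
    linarith
  have h3 : ((p : ℝ) / 2) ^ r ≤ ((p - e : ℕ) : ℝ) ^ r := pow_le_pow_left₀ (by positivity) h2 r
  rw [Nat.cast_mul, Nat.cast_pow, Nat.cast_mul, Nat.cast_pow] at h1
  have h4 : (p : ℝ) * ((p : ℝ) / 2) ^ r ≤ p * ((p - e : ℕ) : ℝ) ^ r :=
    mul_le_mul_of_nonneg_left h3 hpR.le
  have h5 : ((1 / 2 : ℝ) ^ r - ((∏ i, (d i - 1) : ℕ) : ℝ) / p) * (p : ℝ) ^ (r + 1) =
      p * ((p : ℝ) / 2) ^ r - (p : ℝ) ^ r * ((∏ i, (d i - 1) : ℕ) : ℝ) := by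
    rw [pow_succ, div_pow, div_pow, one_pow]
    field_simp
  rw [h5]
  linarith

end Pool.Agent.Q267.DC
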